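import Pool.Agent.Lib.MP_28303a_al.TW.Lemmas

/-! # Group actions on trees given as simple graphs; the class of groups

Statements of the modules of parts 5 and 6.  Proofs: `Paper2.md`. -/

set_option autoImplicit false
set_option linter.unusedSectionVars false
set_option linter.unusedVariables false

namespace Pool.Agent.NegK.TW

universe u v w

open Matrix MonoidAlgebra

/-- `Γ` acts on the tree `G` without inversions. -/
structure TreeAct (Γ : Type u) [Group Γ] {V : Type u} [MulAction Γ V] (G : SimpleGraph V) :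
    Prop where
  tree : G.IsTree
  adj : ∀ (g : Γ) (v w : V), G.Adj v w → G.Adj (g • v) (g • w)
  noinv : ∀ (g : Γ) (v w : V), G.Adj v w → ¬ (g • v = w ∧ g • w = v)

/-- The intersections of the subgroups `g j (K (i j)) (g j)⁻¹` along reduced paths
`v 0, v 1, ..., v (l + 1)` with `m ≤ l`, where `g j` maps the oriented edge `(a (i j), b (i j))` to
the `j`-th oriented edge `(v j, v (j + 1))` of the path. -/
def PathGroups {Γ : Type u} [Group Γ] {V : Type u} [MulAction Γ V] (G : SimpleGraph V) {ι : Type}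
    (a b : ι → V) (K : ι → Subgroup Γ) (m : ℕ) : Set (Subgroup Γ) :=
  {S | ∃ l, m ≤ l ∧ ∃ (v : ℕ → V) (i : ℕ → ι) (g : ℕ → Γ),
    (∀ j ≤ l, G.Adj (v j) (v (j + 1))) ∧ (∀ j < l, v j ≠ v (j + 2)) ∧
    (∀ j ≤ l, g j • a (i j) = v j ∧ g j • b (i j) = v (j + 1)) ∧
    S = ⨅ j : Fin (l + 1), (K (i j)).map (MulAut.conj (g j)).toMonoidHom}

/-- The condition (N) on long paths: for every finite family of oriented edges `(a i, b i)` and
finitely generated subgroups `K i` of their stabilizers there are larger subgroups `K' i` of the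
stabilizers, a length `m` and a bounded rank function `ρ` such that `P` holds for the path groups of
rank `0`, the rank is monotone, and strictly monotone where it is not `0`, and such that
`Q` holds for the subgroup generated by `S` and `g` if `S` is a path group of rank `≠ 0` and
`g` a hyperbolic element normalizing `S`. -/
def PathCond {Γ : Type u} [Group Γ] {V : Type u} [MulAction Γ V] (P Q : Subgroup Γ → Prop)
    (G : SimpleGraph V) : Prop :=
  ∀ (ι : Type) [Finite ι] (a b : ι → V) (K : ι → Subgroup Γ), (∀ i, G.Adj (a i) (b i)) →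
    (∀ i, (K i).FG) →
    (∀ i, K i ≤ MulAction.stabilizer Γ (a i) ⊓ MulAction.stabilizer Γ (b i)) →
    ∃ (K' : ι → Subgroup Γ) (m M : ℕ) (ρ : Subgroup Γ → ℕ),
      (∀ i, K i ≤ K' i ∧
        K' i ≤ MulAction.stabilizer Γ (a i) ⊓ MulAction.stabilizer Γ (b i)) ∧
      RankOK P Q (fun g => ∀ v : V, g • v ≠ v) (PathGroups G a b K' m) M ρ

/-- The tree `T` describes the graph `G`. -/
structure OTree.Of {Γ : Type u} [Group Γ] {V E : Type u} [MulAction Γ V] [MulAction Γ E]
    (T : OTree Γ V E) (G : SimpleGraph V) : Prop where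
  adj : ∀ e, G.Adj (T.o e) (T.t e)
  inj : ∀ e e', T.o e = T.o e' → T.t e = T.t e' → e = e'
  surj : ∀ v w, G.Adj v w → (∃ e, T.o e = v ∧ T.t e = w) ∨ (∃ e, T.o e = w ∧ T.t e = v)
  anti : ∀ e e', T.o e = T.t e' → T.t e ≠ T.o e'

open Classical in
/-- The level of the oriented edge `η` relative to the vertex `x`: the distance of its terminus to
`x`, with a minus sign if `η` points away from `x`. -/
noncomputable def lev {Γ : Type u} [Group Γ] {V E : Type u} [MulAction Γ V] [MulAction Γ E]
    (T : OTree Γ V E) (G : SimpleGraph V) (x : V) (η : Dt E) : ℤ :=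
  if G.dist (T.src η) x = G.dist (T.tgt η) x + 1 then (G.dist (T.tgt η) x : ℤ)
  else -(G.dist (T.tgt η) x : ℤ)

/-! ## Part 5. Trees -/

/-- TD (100 lines). Distances in trees. -/
def TdStatement : Prop :=
  ∀ (V : Type u) (G : SimpleGraph V), G.IsTree →
    (∀ v w x, G.Adj v w → G.dist v x = G.dist w x + 1 ∨ G.dist w x = G.dist v x + 1) ∧
    (∀ v w w' x, G.Adj v w → G.Adj v w' → G.dist v x = G.dist w x + 1 →
      G.dist v x = G.dist w' x + 1 → w = w')

/-- HALF (120 lines, uses TD). Half trees. -/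
def HalfStatement : Prop :=
  ∀ (V : Type u) (G : SimpleGraph V), G.IsTree → ∀ o t a b : V, G.Adj o t → G.Adj a b →
    ¬ (a = o ∧ b = t) → ¬ (a = t ∧ b = o) →
    (G.dist a t < G.dist a o ↔ G.dist b t < G.dist b o)

/-- ORI (150 lines). Invariant orientations. -/
def OriStatement : Prop :=
  ∀ (Γ V : Type u) [Group Γ] [MulAction Γ V] (G : SimpleGraph V),
    (∀ (g : Γ) (v w : V), G.Adj v w → G.Adj (g • v) (g • w)) →
    (∀ (g : Γ) (v w : V), G.Adj v w → ¬ (g • v = w ∧ g • w = v)) →
    ∃ O : V → V → Prop, (∀ v w, O v w → G.Adj v w) ∧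
      (∀ (g : Γ) (v w : V), O v w → O (g • v) (g • w)) ∧
      ∀ v w, G.Adj v w → (O v w ↔ ¬ O w v)

/-- TRE (80 lines, uses HALF, ORI). -/
def TreStatement : Prop :=
  ∀ (Γ V : Type u) [Group Γ] [MulAction Γ V] (G : SimpleGraph V), TreeAct Γ G →
    ∃ (E : Type u) (_ : MulAction Γ E) (T : OTree Γ V E), T.Of G

/-- LEV (200 lines, uses TD). Levels. -/
def LevStatement : Prop :=
  ∀ (Γ V E : Type u) [Group Γ] [MulAction Γ V] [MulAction Γ E] (G : SimpleGraph V)
    (T : OTree Γ V E), G.IsTree → T.Of G →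
    Levels T.prev ∧ ∀ (x : V) (η η' : Dt E), T.prev.R η η' → lev T G x η < lev T G x η'

/-- SUBT (200 lines). Finite subtrees. -/
def SubtStatement : Prop :=
  ∀ (Γ V E : Type u) [Group Γ] [MulAction Γ V] [MulAction Γ E] (G : SimpleGraph V)
    (T : OTree Γ V E), G.IsTree → T.Of G → ∀ b : V, T.Subtrees b

/-- HYP (60 lines, uses LEV). -/
def HypStatement : Prop :=
  ∀ (Γ V E : Type u) [Group Γ] [MulAction Γ V] [MulAction Γ E] (G : SimpleGraph V)
    (T : OTree Γ V E), TreeAct Γ G → T.Of G → ∀ (g : Γ) (η : Dt E),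
    Relation.TransGen T.prev.R η (g • η) → ∀ v : V, g • v ≠ v

/-- FINA (150 lines, uses HYP). -/
def FinaStatement : Prop :=
  ∀ (k Γ V E : Type u) [Ring k] [Group Γ] [MulAction Γ V] [MulAction Γ E] (G : SimpleGraph V)
    (T : OTree Γ V E), TreeAct Γ G → T.Of G →
    PathCond (fun H : Subgroup Γ => RegCoh (MonoidAlgebra k H))
      (fun H : Subgroup Γ => NilPoly k H) G → AbsCond k T.prev

/-- THG (80 lines, uses THA, TRE, LEV, SUBT, FINA). -/
def ThgStatement : Prop :=
  ∀ (k Γ V : Type u) [Ring k] [Group Γ] [MulAction Γ V] (G : SimpleGraph V), TreeAct Γ G →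
    (∀ v w, G.Adj v w →
      NilLaur k (MulAction.stabilizer Γ v ⊓ MulAction.stabilizer Γ w : Subgroup Γ)) →
    PathCond (fun H : Subgroup Γ => RegCoh (MonoidAlgebra k H))
      (fun H : Subgroup Γ => NilPoly k H) G →
    ⨆ v : V, img k (MulAction.stabilizer Γ v) = ⊤

/-! ## Part 6. The class of groups -/

/-- The class `𝒮`: for every regular ring `R` the maps `K₀(R[G]) → K₀(R[t][G])` and
`K₀(R[G]) → K₀(R[t, t⁻¹][G])` are onto. -/
def InS (G : Type u) [Group G] : Prop :=
  ∀ (R : Type u) [Ring R], RegularRing R → NilPoly R G ∧ NilLaur R G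

/-- The class `ℛ` of regular coherent groups: for every regular ring `R` the finitely generated
submodules of finitely generated free `R[G]`-modules have finite resolutions by finitely generated
projective modules. -/
def InRC (G : Type u) [Group G] : Prop :=
  ∀ (R : Type u) [Ring R], RegularRing R → RegCoh (MonoidAlgebra R G)

/-- VAN (120 lines). Vanishing of the negative K-groups. -/
def VanStatement : Prop :=
  ∀ (G : Type u) [Group G], InS G → ∀ (n : ℕ) (R : Type u) [Ring R], RegularRing R →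
    Subsingleton (KNeg (n + 1) (MonoidAlgebra R G))

/-- POLYK (400 lines, uses PREG (WR)). `K₀(R) → K₀(R[X])` is onto for regular rings. -/
def PolykStatement : Prop :=
  ∀ (R : Type u) [Ring R], RegularRing R →
    Function.Surjective (K0.map (Polynomial.C : R →+* Polynomial R))

/-- TRIV (60 lines, uses POLYK). The trivial group. -/
def TrivStatement : Prop := InS PUnit.{u + 1} ∧ InRC PUnit.{u + 1}

/-- RET (60 lines). Retracts. -/
def RetStatement : Prop :=
  ∀ (G H : Type u) [Group G] [Group H] (i : H →* G) (r : G →* H), (∀ h, r (i h) = h) →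
    InS G → InS H

/-- PRODZ (150 lines). Products with `ℤ`. -/
def ProdzStatement : Prop :=
  (∀ (G : Type u) [Group G], InS G → InS (G × Multiplicative ℤ)) ∧
  (∀ (G : Type u) [Group G], InRC G → InRC (G × Multiplicative ℤ))

/-- UNI (120 lines). Directed unions. -/
def UniStatement : Prop :=
  ∀ (G : Type u) [Group G],
    (∀ S : Finset G, ∃ H : Subgroup G, (∀ s ∈ S, s ∈ H) ∧ InS H) → InS G

/-- TREEC (100 lines, uses THG, PREG (WR)). Groups acting on trees. -/
def TreecStatement : Prop :=
  ∀ (Γ V : Type u) [Group Γ] [MulAction Γ V] (G : SimpleGraph V), TreeAct Γ G →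
    (∀ v : V, InS (MulAction.stabilizer Γ v)) →
    (∀ v w, G.Adj v w →
      InS (MulAction.stabilizer Γ v ⊓ MulAction.stabilizer Γ w : Subgroup Γ)) →
    PathCond (fun H : Subgroup Γ => InRC H) (fun H : Subgroup Γ => InS H) G → InS Γ

/-- The stabilizers of all reduced paths with `m + 1` edges are regular coherent. -/
def LongRC (Γ : Type u) [Group Γ] {V : Type u} [MulAction Γ V] (G : SimpleGraph V) : Prop :=
  ∃ m : ℕ, ∀ (l : ℕ), m ≤ l → ∀ v : ℕ → V, (∀ j ≤ l, G.Adj (v j) (v (j + 1))) →
    (∀ j < l, v j ≠ v (j + 2)) →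
    InRC (⨅ j : Fin (l + 2), MulAction.stabilizer Γ (v j) : Subgroup Γ)

/-- LONG (60 lines). A simple sufficient condition. -/
def LongStatement : Prop :=
  ∀ (Γ V : Type u) [Group Γ] [MulAction Γ V] (G : SimpleGraph V), LongRC Γ G →
    PathCond (fun H : Subgroup Γ => InRC H) (fun H : Subgroup Γ => InS H) G

end Pool.Agent.NegK.TW
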