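import Pool.Agent.Lib.MP_28303a_al.WR.Iface

/-! # Matrices over group rings with degrees in sets with group action

`Γ` acts on `D`, a free module `k[Γ]^J` has degrees `dg : J → D`: the element `h e_j` has the degree
`h • dg j`.  Matrices act on row vectors from the right.
* `res dg S x`: the part of the row `x` with degrees in `S`.
* `Spt dg S x`: all degrees of `x` lie in `S`.
* `Sup dg dg' R M`: the matrix `M` moves the degree `d` only to degrees `d'` with `R d d'`.
* `part dg dg' R M`: the part of `M` moving degrees `d` to degrees `d'` with `R d d'`. -/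

set_option autoImplicit false
set_option linter.unusedSectionVars false
set_option linter.unusedVariables false

namespace Pool.Agent.NegK.TW

universe u v w

open Matrix MonoidAlgebra

/-! ### Filtering elements of a group ring -/

section filt

variable {k : Type u} [Ring k] {Γ : Type u} [Group Γ]

/-- The part of `x` with support in `S`. -/
noncomputable def fil (S : Set Γ) : MonoidAlgebra k Γ →+ MonoidAlgebra k Γ := by
  classical
  exact
  { toFun := fun w => MonoidAlgebra.ofCoeff (w.coeff.filter (fun g => g ∈ S))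
    map_zero' := by
      show MonoidAlgebra.ofCoeff (Finsupp.filter (fun g => g ∈ S) (0 : Γ →₀ k)) = 0
      rw [Finsupp.filter_zero]; rfl
    map_add' := fun w w' => by
      show MonoidAlgebra.ofCoeff (Finsupp.filter (fun g => g ∈ S) (w.coeff + w'.coeff)) = _
      rw [Finsupp.filter_add]; rfl }

theorem fil_pos {S : Set Γ} {h : Γ} (hh : h ∈ S) (x : MonoidAlgebra k Γ) :
    (fil S x).coeff h = x.coeff h := by
  classical
  show (x.coeff.filter (fun g => g ∈ S)) h = _
  rw [Finsupp.filter_apply_pos _ _ hh]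

theorem fil_neg {S : Set Γ} {h : Γ} (hh : h ∉ S) (x : MonoidAlgebra k Γ) :
    (fil S x).coeff h = 0 := by
  classical
  show (x.coeff.filter (fun g => g ∈ S)) h = _
  rw [Finsupp.filter_apply_neg _ _ hh]

theorem fil_ne {S : Set Γ} {h : Γ} {x : MonoidAlgebra k Γ} (hc : (fil S x).coeff h ≠ 0) :
    h ∈ S ∧ x.coeff h ≠ 0 := by
  by_cases hh : h ∈ S
  · rw [fil_pos hh] at hc
    exact ⟨hh, hc⟩
  · exact absurd (fil_neg hh x) hc

theorem fil_eq_self {S : Set Γ} {x : MonoidAlgebra k Γ} (h : ∀ g, x.coeff g ≠ 0 → g ∈ S) :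
    fil S x = x := by
  ext g
  by_cases hg : g ∈ S
  · rw [fil_pos hg]
  · rw [fil_neg hg]
    by_contra hc
    exact hg (h g (Ne.symm hc))

theorem fil_eq_zero {S : Set Γ} {x : MonoidAlgebra k Γ} (h : ∀ g, x.coeff g ≠ 0 → g ∉ S) :
    fil S x = 0 := by
  ext g
  by_cases hg : g ∈ S
  · rw [fil_pos hg]
    by_contra hc
    exact h g hc hg
  · rw [fil_neg hg]; rfl

theorem fil_congr {S S' : Set Γ} {x : MonoidAlgebra k Γ}
    (h : ∀ g, x.coeff g ≠ 0 → (g ∈ S ↔ g ∈ S')) : fil S x = fil S' x := by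
  ext g
  by_cases hx : x.coeff g = 0
  · have h1 : ∀ T : Set Γ, (fil T x).coeff g = 0 := by
      intro T
      by_contra hc
      exact (fil_ne hc).2 hx
    rw [h1, h1]
  · by_cases hg : g ∈ S
    · rw [fil_pos hg, fil_pos ((h g hx).1 hg)]
    · rw [fil_neg hg, fil_neg (fun h' => hg ((h g hx).2 h'))]

theorem fil_fil (S S' : Set Γ) (x : MonoidAlgebra k Γ) : fil S (fil S' x) = fil (S ∩ S') x := by
  ext g
  by_cases hg : g ∈ S
  · rw [fil_pos hg]
    by_cases hg' : g ∈ S'
    · rw [fil_pos hg', fil_pos (show g ∈ S ∩ S' from ⟨hg, hg'⟩)]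
    · rw [fil_neg hg', fil_neg (show g ∉ S ∩ S' from fun h => hg' h.2)]
  · rw [fil_neg hg, fil_neg (show g ∉ S ∩ S' from fun h => hg h.1)]

/-- The degree `h` part of `single a c * x`. -/
theorem fil_single_mul (S : Set Γ) (a : Γ) (c : k) (x : MonoidAlgebra k Γ) :
    fil S (single a c * x) = single a c * fil {h | a * h ∈ S} x := by
  ext g
  rw [MonoidAlgebra.coeff_single_mul_apply]
  by_cases hg : g ∈ S
  · rw [fil_pos hg, MonoidAlgebra.coeff_single_mul_apply,
      fil_pos (show a⁻¹ * g ∈ {h | a * h ∈ S} by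
        show a * (a⁻¹ * g) ∈ S
        rwa [mul_inv_cancel_left])]
  · rw [fil_neg hg, fil_neg (show a⁻¹ * g ∉ {h | a * h ∈ S} by
        show ¬ (a * (a⁻¹ * g) ∈ S)
        rwa [mul_inv_cancel_left]), mul_zero]

theorem sum_single_coeff (x : MonoidAlgebra k Γ) :
    ∑ g ∈ x.coeff.support, single g (x.coeff g) = x := by
  classical
  ext h
  rw [MonoidAlgebra.coeff_sum, Finsupp.finsetSum_apply]
  by_cases hh : h ∈ x.coeff.support
  · rw [Finset.sum_eq_single h]
    · rw [MonoidAlgebra.coeff_single, Finsupp.single_eq_same]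
    · intro b _ hb
      rw [MonoidAlgebra.coeff_single, Finsupp.single_apply, if_neg hb]
    · intro hc
      exact absurd hh hc
  · rw [Finset.sum_eq_zero]
    · exact (Finsupp.notMem_support_iff.1 hh).symm
    · intro b hb
      rw [MonoidAlgebra.coeff_single, Finsupp.single_apply, if_neg]
      rintro rfl
      exact hh hb

end filt

/-! ### Rows -/

section rows

variable {k : Type u} [Ring k] {Γ : Type u} [Group Γ] {D : Type u} [MulAction Γ D]
variable {J : Type}

/-- The part of a row with degrees in `S`. -/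
noncomputable def res (dg : J → D) (S : Set D) :
    (J → MonoidAlgebra k Γ) →+ (J → MonoidAlgebra k Γ) where
  toFun x j := fil {h | h • dg j ∈ S} (x j)
  map_zero' := funext fun j => map_zero _
  map_add' x y := funext fun j => map_add _ _ _

/-- All degrees of the row `x` lie in `S`. -/
def Spt (dg : J → D) (S : Set D) (x : J → MonoidAlgebra k Γ) : Prop :=
  ∀ j h, (x j).coeff h ≠ 0 → h • dg j ∈ S

theorem res_apply (dg : J → D) (S : Set D) (x : J → MonoidAlgebra k Γ) (j : J) :
    res dg S x j = fil {h | h • dg j ∈ S} (x j) := rfl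

theorem Spt.res_eq {dg : J → D} {S : Set D} {x : J → MonoidAlgebra k Γ} (h : Spt dg S x) :
    res dg S x = x := funext fun j => fil_eq_self (h j)

theorem spt_res (dg : J → D) (S : Set D) (x : J → MonoidAlgebra k Γ) : Spt dg S (res dg S x) :=
  fun _ _ hc => (fil_ne hc).1

theorem spt_iff {dg : J → D} {S : Set D} {x : J → MonoidAlgebra k Γ} :
    Spt dg S x ↔ res dg S x = x := ⟨Spt.res_eq, fun h => h ▸ spt_res dg S x⟩

theorem Spt.mono {dg : J → D} {S S' : Set D} (hS : S ⊆ S') {x : J → MonoidAlgebra k Γ}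
    (h : Spt dg S x) : Spt dg S' x := fun j g hg => hS (h j g hg)

theorem Spt.zero {dg : J → D} {S : Set D} : Spt dg S (0 : J → MonoidAlgebra k Γ) :=
  fun _ _ hc => absurd rfl hc

theorem Spt.add {dg : J → D} {S : Set D} {x y : J → MonoidAlgebra k Γ} (hx : Spt dg S x)
    (hy : Spt dg S y) : Spt dg S (x + y) := by
  rw [spt_iff, map_add, hx.res_eq, hy.res_eq]

theorem Spt.neg {dg : J → D} {S : Set D} {x : J → MonoidAlgebra k Γ} (hx : Spt dg S x) :
    Spt dg S (-x) := by
  rw [spt_iff, map_neg, hx.res_eq]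

theorem Spt.sub {dg : J → D} {S : Set D} {x y : J → MonoidAlgebra k Γ} (hx : Spt dg S x)
    (hy : Spt dg S y) : Spt dg S (x - y) := by
  rw [spt_iff, map_sub, hx.res_eq, hy.res_eq]

theorem Spt.sum {α : Type*} {dg : J → D} {S : Set D} (s : Finset α)
    {x : α → J → MonoidAlgebra k Γ} (hx : ∀ a ∈ s, Spt dg S (x a)) :
    Spt dg S (∑ a ∈ s, x a) := by
  rw [spt_iff, map_sum]
  exact Finset.sum_congr rfl fun a ha => (hx a ha).res_eq

theorem res_res (dg : J → D) (S S' : Set D) (x : J → MonoidAlgebra k Γ) :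
    res dg S (res dg S' x) = res dg (S ∩ S') x := funext fun _ => fil_fil _ _ _

theorem res_comm (dg : J → D) (S S' : Set D) (x : J → MonoidAlgebra k Γ) :
    res dg S (res dg S' x) = res dg S' (res dg S x) := by
  rw [res_res, res_res, Set.inter_comm]

theorem Spt.res {dg : J → D} {S : Set D} {x : J → MonoidAlgebra k Γ} (hx : Spt dg S x)
    (S' : Set D) : Spt dg S (res dg S' x) := by
  rw [spt_iff, res_comm, hx.res_eq]

theorem Spt.res_of_subset {dg : J → D} {S S' : Set D} {x : J → MonoidAlgebra k Γ}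
    (hx : Spt dg S x) (h : S ⊆ S') : TW.res dg S' x = x := (hx.mono h).res_eq

theorem Spt.res_eq_zero {dg : J → D} {S S' : Set D} {x : J → MonoidAlgebra k Γ}
    (hx : Spt dg S x) (h : ∀ d ∈ S, d ∉ S') : TW.res dg S' x = 0 :=
  funext fun j => fil_eq_zero fun g hg => h _ (hx j g hg)

theorem Spt.eq_zero {dg : J → D} {S S' : Set D} {x : J → MonoidAlgebra k Γ}
    (hx : Spt dg S x) (hx' : Spt dg S' x) (h : ∀ d ∈ S, d ∉ S') : x = 0 := by
  rw [← hx'.res_eq]
  exact hx.res_eq_zero h

theorem res_univ (dg : J → D) (x : J → MonoidAlgebra k Γ) : res dg Set.univ x = x :=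
  Spt.res_eq fun _ _ _ => Set.mem_univ _

theorem res_empty (dg : J → D) (x : J → MonoidAlgebra k Γ) : res dg ∅ x = 0 :=
  funext fun j => fil_eq_zero fun _ _ => Set.notMem_empty _

/-- Disjoint unions. -/
theorem res_union {dg : J → D} {S S' : Set D} (h : ∀ d ∈ S, d ∉ S')
    (x : J → MonoidAlgebra k Γ) : res dg (S ∪ S') x = res dg S x + res dg S' x := by
  funext j
  rw [Pi.add_apply, res_apply, res_apply, res_apply]
  ext g
  rw [MonoidAlgebra.coeff_add, Finsupp.add_apply]
  by_cases h1 : g • dg j ∈ S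
  · rw [fil_pos (show g ∈ {h | h • dg j ∈ S ∪ S'} from Or.inl h1),
      fil_pos (show g ∈ {h | h • dg j ∈ S} from h1),
      fil_neg (show g ∉ {h | h • dg j ∈ S'} from h _ h1), add_zero]
  · by_cases h2 : g • dg j ∈ S'
    · rw [fil_pos (show g ∈ {h | h • dg j ∈ S ∪ S'} from Or.inr h2),
        fil_neg (show g ∉ {h | h • dg j ∈ S} from h1),
        fil_pos (show g ∈ {h | h • dg j ∈ S'} from h2), zero_add]
    · rw [fil_neg (show g ∉ {h | h • dg j ∈ S ∪ S'} from fun hc => hc.elim h1 h2),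
        fil_neg (show g ∉ {h | h • dg j ∈ S} from h1),
        fil_neg (show g ∉ {h | h • dg j ∈ S'} from h2), add_zero]

theorem res_compl (dg : J → D) (S : Set D) (x : J → MonoidAlgebra k Γ) :
    res dg S x + res dg Sᶜ x = x := by
  rw [← res_union (S := S) (S' := Sᶜ) (fun d hd hc => hc hd), Set.union_compl_self, res_univ]

/-- If the degrees of `x` lie in `S`, only the degrees of `S' ∩ S` matter. -/
theorem Spt.res_congr {dg : J → D} {S S₁ S₂ : Set D} {x : J → MonoidAlgebra k Γ}
    (hx : Spt dg S x) (h : ∀ d ∈ S, (d ∈ S₁ ↔ d ∈ S₂)) : TW.res dg S₁ x = TW.res dg S₂ x :=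
  funext fun j => fil_congr fun g hg => h _ (hx j g hg)

theorem res_eq_zero_iff {dg : J → D} {S : Set D} {x : J → MonoidAlgebra k Γ} :
    res dg S x = 0 ↔ Spt dg Sᶜ x := by
  constructor
  · intro h
    have h1 := res_compl dg S x
    rw [h, zero_add] at h1
    exact h1 ▸ spt_res _ _ _
  · intro h
    exact h.res_eq_zero fun d hd hc => hd hc

/-- A row is determined by its homogeneous parts. -/
theorem eq_of_res {dg : J → D} {x y : J → MonoidAlgebra k Γ}
    (h : ∀ d, res dg {d} x = res dg {d} y) : x = y := by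
  funext j
  ext g
  have h1 := congrFun (h (g • dg j)) j
  rw [res_apply, res_apply] at h1
  have hm : g ∈ {h' : Γ | h' • dg j ∈ ({g • dg j} : Set D)} := rfl
  rw [← fil_pos hm (x j), h1, fil_pos hm]

/-- The finite set of degrees of a row. -/
theorem exists_degrees (dg : J → D) [Finite J] (x : J → MonoidAlgebra k Γ) :
    ∃ F : Finset D, Spt dg (F : Set D) x := by
  classical
  have : Fintype J := Fintype.ofFinite J
  refine ⟨Finset.univ.biUnion fun j => (x j).coeff.support.image fun h => h • dg j, ?_⟩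
  intro j h hh
  rw [Finset.mem_coe, Finset.mem_biUnion]
  exact ⟨j, Finset.mem_univ j, Finset.mem_image_of_mem _ (Finsupp.mem_support_iff.2 hh)⟩

/-- A row is the sum of its homogeneous parts. -/
theorem Spt.sum_res {dg : J → D} {F : Finset D} {x : J → MonoidAlgebra k Γ}
    (hx : Spt dg (F : Set D) x) : ∑ d ∈ F, TW.res dg {d} x = x := by
  classical
  have key : ∀ F' : Finset D, ∑ d ∈ F', TW.res dg {d} x = TW.res dg (F' : Set D) x := by
    intro F'
    induction F' using Finset.induction_on with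
    | empty => rw [Finset.sum_empty, Finset.coe_empty, res_empty]
    | insert a s ha ih =>
      rw [Finset.sum_insert ha, ih, Finset.coe_insert, Set.insert_eq, res_union]
      rintro d rfl hd
      exact ha hd
  rw [key, hx.res_eq]

/-! ### Scalars -/

/-- Left multiplication of rows by `single g c`. -/
theorem res_single_smul (dg : J → D) (S : Set D) (g : Γ) (c : k) (x : J → MonoidAlgebra k Γ) :
    res dg S ((single g c : MonoidAlgebra k Γ) • x) =
      (single g c : MonoidAlgebra k Γ) • res dg {d | g • d ∈ S} x := by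
  funext j
  show fil {h | h • dg j ∈ S} (single g c * x j) = single g c * fil {h | h • dg j ∈ {d | g • d ∈ S}}
    (x j)
  rw [fil_single_mul]
  congr 1
  refine fil_congr fun h _ => ?_
  show (g * h) • dg j ∈ S ↔ g • (h • dg j) ∈ S
  rw [mul_smul]

theorem Spt.single_smul {dg : J → D} {S S' : Set D} {x : J → MonoidAlgebra k Γ}
    (hx : Spt dg S x) (g : Γ) (c : k) (h : ∀ d ∈ S, g • d ∈ S') :
    Spt dg S' ((single g c : MonoidAlgebra k Γ) • x) := by
  rw [spt_iff, res_single_smul, hx.res_of_subset (S' := {d | g • d ∈ S'}) h]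

/-- The basis rows. -/
theorem spt_single [DecidableEq J] (dg : J → D) (j : J) :
    Spt dg {dg j} (Pi.single j (1 : MonoidAlgebra k Γ)) := by
  intro i h hh
  by_cases hij : i = j
  · subst hij
    rw [Pi.single_eq_same, MonoidAlgebra.one_def] at hh
    rw [coeff_single_ne hh, one_smul]
    rfl
  · rw [Pi.single_eq_of_ne hij] at hh
    exact absurd rfl hh

/-- A row is a combination of translates of basis rows of its degrees. -/
theorem row_eq_sum [Fintype J] [DecidableEq J] (x : J → MonoidAlgebra k Γ) :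
    x = ∑ j, ∑ h ∈ (x j).coeff.support,
      (single h ((x j).coeff h) : MonoidAlgebra k Γ) • Pi.single j (1 : MonoidAlgebra k Γ) := by
  funext i
  rw [Finset.sum_apply, Finset.sum_eq_single i]
  · rw [Finset.sum_apply]
    simp only [Pi.smul_apply, Pi.single_eq_same, smul_eq_mul, mul_one]
    exact (sum_single_coeff _).symm
  · intro j _ hj
    rw [Finset.sum_apply]
    refine Finset.sum_eq_zero fun h _ => ?_
    rw [Pi.smul_apply, Pi.single_eq_of_ne (Ne.symm hj), smul_zero]
  · intro hi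
    exact absurd (Finset.mem_univ i) hi

end rows

/-! ### Matrices -/

section mats

variable {k : Type u} [Ring k] {Γ : Type u} [Group Γ]
variable {D D' D'' : Type u} [MulAction Γ D] [MulAction Γ D'] [MulAction Γ D'']
variable {J J' J'' : Type}

/-- The relation `R` is invariant. -/
def Invar (Γ : Type u) [Group Γ] {D D' : Type u} [MulAction Γ D] [MulAction Γ D']
    (R : D → D' → Prop) : Prop := ∀ (g : Γ) d d', R d d' → R (g • d) (g • d')

theorem Invar.iff {R : D → D' → Prop} (hR : Invar Γ R) (g : Γ) (d : D) (d' : D') :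
    R (g • d) (g • d') ↔ R d d' := by
  refine ⟨fun h => ?_, hR g d d'⟩
  have := hR g⁻¹ _ _ h
  rwa [inv_smul_smul, inv_smul_smul] at this

theorem Invar.iff' {R : D → D' → Prop} (hR : Invar Γ R) (g : Γ) (d : D) (d' : D') :
    R d (g • d') ↔ R (g⁻¹ • d) d' := by
  rw [← hR.iff g (g⁻¹ • d) d', smul_inv_smul]

theorem invar_eq : Invar Γ (fun d d' : D => d = d') := fun _ _ _ h => h ▸ rfl

/-- The matrix `M` moves degrees `d` only to degrees `d'` with `R d d'`. -/
def Sup (dg : J → D) (dg' : J' → D') (R : D → D' → Prop) (M : Matrix J J' (MonoidAlgebra k Γ)) :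
    Prop := ∀ i j h, (M i j).coeff h ≠ 0 → R (dg i) (h • dg' j)

/-- Graded matrices. -/
abbrev Grd (dg : J → D) (dg' : J' → D) (M : Matrix J J' (MonoidAlgebra k Γ)) : Prop :=
  Sup dg dg' (fun d d' => d = d') M

theorem Sup.mono {dg : J → D} {dg' : J' → D'} {R R' : D → D' → Prop} (h : ∀ d d', R d d' → R' d d')
    {M : Matrix J J' (MonoidAlgebra k Γ)} (hM : Sup dg dg' R M) : Sup dg dg' R' M :=
  fun i j g hg => h _ _ (hM i j g hg)

theorem Sup.zero {dg : J → D} {dg' : J' → D'} {R : D → D' → Prop} :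
    Sup dg dg' R (0 : Matrix J J' (MonoidAlgebra k Γ)) := fun _ _ _ hg => absurd rfl hg

theorem coeff_add_ne {x y : MonoidAlgebra k Γ} {g : Γ} (h : (x + y).coeff g ≠ 0) :
    x.coeff g ≠ 0 ∨ y.coeff g ≠ 0 := by
  by_contra hc
  push Not at hc
  refine h ?_
  rw [MonoidAlgebra.coeff_add, Finsupp.add_apply, hc.1, hc.2, add_zero]

theorem coeff_neg_ne {x : MonoidAlgebra k Γ} {g : Γ} (h : (-x).coeff g ≠ 0) :
    x.coeff g ≠ 0 := by
  intro hc
  refine h ?_
  rw [MonoidAlgebra.coeff_neg, Finsupp.neg_apply, hc, neg_zero]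

theorem coeff_sum_ne {α : Type*} {s : Finset α} {x : α → MonoidAlgebra k Γ} {g : Γ}
    (h : (∑ a ∈ s, x a).coeff g ≠ 0) : ∃ a ∈ s, (x a).coeff g ≠ 0 := by
  by_contra hc
  push Not at hc
  refine h ?_
  rw [MonoidAlgebra.coeff_sum, Finsupp.finsetSum_apply]
  exact Finset.sum_eq_zero hc

theorem Sup.add {dg : J → D} {dg' : J' → D'} {R : D → D' → Prop}
    {M N : Matrix J J' (MonoidAlgebra k Γ)} (hM : Sup dg dg' R M) (hN : Sup dg dg' R N) :
    Sup dg dg' R (M + N) := fun i j g hg => (coeff_add_ne hg).elim (hM i j g) (hN i j g)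

theorem Sup.neg {dg : J → D} {dg' : J' → D'} {R : D → D' → Prop}
    {M : Matrix J J' (MonoidAlgebra k Γ)} (hM : Sup dg dg' R M) : Sup dg dg' R (-M) :=
  fun i j g hg => hM i j g (coeff_neg_ne hg)

theorem Sup.sub {dg : J → D} {dg' : J' → D'} {R : D → D' → Prop}
    {M N : Matrix J J' (MonoidAlgebra k Γ)} (hM : Sup dg dg' R M) (hN : Sup dg dg' R N) :
    Sup dg dg' R (M - N) := by
  rw [sub_eq_add_neg]
  exact hM.add hN.neg

theorem grd_one [DecidableEq J] (dg : J → D) : Grd dg dg (1 : Matrix J J (MonoidAlgebra k Γ)) := by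
  intro i j g hg
  by_cases hij : i = j
  · subst hij
    rw [Matrix.one_apply_eq, MonoidAlgebra.one_def] at hg
    rw [coeff_single_ne hg, one_smul]
  · rw [Matrix.one_apply_ne hij] at hg
    exact absurd rfl hg

/-- Products. -/
theorem Sup.mul [Fintype J'] {dg : J → D} {dg' : J' → D'} {dg'' : J'' → D''}
    {R : D → D' → Prop} {R' : D' → D'' → Prop} {R'' : D → D'' → Prop} (hR' : Invar Γ R')
    (h : ∀ a b c, R a b → R' b c → R'' a c)
    {M : Matrix J J' (MonoidAlgebra k Γ)} {N : Matrix J' J'' (MonoidAlgebra k Γ)}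
    (hM : Sup dg dg' R M) (hN : Sup dg' dg'' R' N) : Sup dg dg'' R'' (M * N) := by
  intro i j g hg
  rw [Matrix.mul_apply] at hg
  obtain ⟨x, _, hx⟩ := coeff_sum_ne hg
  obtain ⟨a, b, ha, hb, rfl⟩ := coeff_mul_ne_zero hx
  have h1 := hM i x a ha
  have h2 := hR' a _ _ (hN x j b hb)
  rw [← mul_smul] at h2
  exact h _ _ _ h1 h2

theorem Grd.mul [Fintype J'] {dg : J → D} {dg' : J' → D} {dg'' : J'' → D}
    {M : Matrix J J' (MonoidAlgebra k Γ)} {N : Matrix J' J'' (MonoidAlgebra k Γ)}
    (hM : Grd dg dg' M) (hN : Grd dg' dg'' N) : Grd dg dg'' (M * N) :=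
  Sup.mul invar_eq (fun _ _ _ h1 h2 => h1.trans h2) hM hN

/-- The image of a row with degrees in `S`. -/
theorem Sup.spt [Fintype J] {dg : J → D} {dg' : J' → D'} {R : D → D' → Prop} (hR : Invar Γ R)
    {M : Matrix J J' (MonoidAlgebra k Γ)} (hM : Sup dg dg' R M) {S : Set D} {S' : Set D'}
    (h : ∀ d ∈ S, ∀ d', R d d' → d' ∈ S') {x : J → MonoidAlgebra k Γ} (hx : Spt dg S x) :
    Spt dg' S' (x ᵥ* M) := by
  intro j g hg
  rw [Matrix.vecMul, dotProduct] at hg
  obtain ⟨i, _, hi⟩ := coeff_sum_ne hg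
  obtain ⟨a, b, ha, hb, rfl⟩ := coeff_mul_ne_zero hi
  have h2 := hR a _ _ (hM i j b hb)
  rw [← mul_smul] at h2
  exact h _ (hx i a ha) _ h2

/-- Graded matrices commute with restrictions. -/
theorem Grd.res_vecMul [Fintype J] {dg : J → D} {dg' : J' → D}
    {M : Matrix J J' (MonoidAlgebra k Γ)} (hM : Grd dg dg' M) (S : Set D)
    (x : J → MonoidAlgebra k Γ) : res dg' S (x ᵥ* M) = (res dg S x) ᵥ* M := by
  have h1 : Spt dg' S ((res dg S x) ᵥ* M) :=
    Sup.spt invar_eq hM (fun d hd d' h => h ▸ hd) (spt_res dg S x)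
  have h2 : Spt dg' Sᶜ ((res dg Sᶜ x) ᵥ* M) :=
    Sup.spt invar_eq hM (fun d hd d' h => h ▸ hd) (spt_res dg Sᶜ x)
  conv_lhs => rw [← res_compl dg S x, Matrix.add_vecMul, map_add, h1.res_eq,
    res_eq_zero_iff.2 h2, add_zero]

theorem Grd.spt [Fintype J] {dg : J → D} {dg' : J' → D} {M : Matrix J J' (MonoidAlgebra k Γ)}
    (hM : Grd dg dg' M) {S : Set D} {x : J → MonoidAlgebra k Γ} (hx : Spt dg S x) :
    Spt dg' S (x ᵥ* M) := Sup.spt invar_eq hM (fun d hd d' h => h ▸ hd) hx

open Classical in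
/-- The part of `M` moving degrees `d` to degrees `d'` with `R d d'`. -/
noncomputable def part (dg : J → D) (dg' : J' → D') (R : D → D' → Prop)
    (M : Matrix J J' (MonoidAlgebra k Γ)) : Matrix J J' (MonoidAlgebra k Γ) :=
  fun i j => fil {h | R (dg i) (h • dg' j)} (M i j)

theorem sup_part (dg : J → D) (dg' : J' → D') (R : D → D' → Prop)
    (M : Matrix J J' (MonoidAlgebra k Γ)) : Sup dg dg' R (part dg dg' R M) :=
  fun _ _ _ hg => (fil_ne hg).1

theorem Sup.part_eq {dg : J → D} {dg' : J' → D'} {R : D → D' → Prop}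
    {M : Matrix J J' (MonoidAlgebra k Γ)} (hM : Sup dg dg' R M) : part dg dg' R M = M := by
  ext1 i j
  exact fil_eq_self (hM i j)

theorem Sup.part {dg : J → D} {dg' : J' → D'} {R : D → D' → Prop}
    {M : Matrix J J' (MonoidAlgebra k Γ)} (hM : Sup dg dg' R M) (R' : D → D' → Prop) :
    Sup dg dg' R (TW.part dg dg' R' M) := fun i j g hg => hM i j g (fil_ne hg).2

/-- The part with `R`, applied to a homogeneous row. -/
theorem vecMul_part [Fintype J] {dg : J → D} {dg' : J' → D'} {R : D → D' → Prop}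
    (hR : Invar Γ R) (M : Matrix J J' (MonoidAlgebra k Γ)) {d : D} {x : J → MonoidAlgebra k Γ}
    (hx : Spt dg {d} x) : x ᵥ* part dg dg' R M = res dg' {d' | R d d'} (x ᵥ* M) := by
  funext j
  rw [res_apply]
  simp only [Matrix.vecMul, dotProduct]
  rw [map_sum]
  refine Finset.sum_congr rfl fun i _ => ?_
  conv_lhs => rw [← sum_single_coeff (x i)]
  conv_rhs => rw [← sum_single_coeff (x i)]
  rw [Finset.sum_mul, Finset.sum_mul, map_sum]
  refine Finset.sum_congr rfl fun a ha => ?_
  rw [fil_single_mul]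
  congr 1
  refine fil_congr fun h _ => ?_
  have h1 : a • dg i = d := hx i a (Finsupp.mem_support_iff.1 ha)
  show R (dg i) (h • dg' j) ↔ R d ((a * h) • dg' j)
  rw [← h1, mul_smul, hR.iff]

/-- Two matrices agreeing on all homogeneous rows are equal. -/
theorem ext_hom [Fintype J] [DecidableEq J] (dg : J → D) {M N : Matrix J J' (MonoidAlgebra k Γ)}
    (h : ∀ d (x : J → MonoidAlgebra k Γ), Spt dg {d} x → x ᵥ* M = x ᵥ* N) : M = N := by
  ext1 i j
  have h1 := congrFun (h _ _ (spt_single dg i)) j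
  rwa [Matrix.single_one_vecMul, Matrix.single_one_vecMul] at h1

theorem part_add (dg : J → D) (dg' : J' → D') (R : D → D' → Prop)
    (M N : Matrix J J' (MonoidAlgebra k Γ)) :
    part dg dg' R (M + N) = part dg dg' R M + part dg dg' R N := by
  ext1 i j
  exact map_add _ _ _

/-- The images of matrices under change of coefficients. -/
theorem coeff_map_ne {k' : Type u} [Ring k'] {f : k →+* k'} {x : MonoidAlgebra k Γ} {g : Γ}
    (h : (MonoidAlgebra.mapRingHom Γ f x).coeff g ≠ 0) : x.coeff g ≠ 0 := by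
  rw [MonoidAlgebra.coeff_mapRingHom] at h
  intro hc
  exact h (by rw [hc, map_zero])

theorem Sup.map {k' : Type u} [Ring k'] (f : k →+* k') {dg : J → D} {dg' : J' → D'}
    {R : D → D' → Prop} {M : Matrix J J' (MonoidAlgebra k Γ)} (hM : Sup dg dg' R M) :
    Sup dg dg' R (M.map (MonoidAlgebra.mapRingHom Γ f)) :=
  fun i j g hg => hM i j g (coeff_map_ne hg)

/-- Blocks. -/
theorem Sup.fromBlocks {J₁ J₂ J₃ J₄ : Type} {d₁ : J₁ → D} {d₂ : J₂ → D} {d₃ : J₃ → D'}
    {d₄ : J₄ → D'} {R : D → D' → Prop} {A : Matrix J₁ J₃ (MonoidAlgebra k Γ)}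
    {B : Matrix J₁ J₄ (MonoidAlgebra k Γ)} {C : Matrix J₂ J₃ (MonoidAlgebra k Γ)}
    {E : Matrix J₂ J₄ (MonoidAlgebra k Γ)} (hA : Sup d₁ d₃ R A) (hB : Sup d₁ d₄ R B)
    (hC : Sup d₂ d₃ R C) (hE : Sup d₂ d₄ R E) :
    Sup (Sum.elim d₁ d₂) (Sum.elim d₃ d₄) R (Matrix.fromBlocks A B C E) := by
  rintro (i | i) (j | j) g hg
  · exact hA i j g hg
  · exact hB i j g hg
  · exact hC i j g hg
  · exact hE i j g hg

end mats

end Pool.Agent.NegK.TW
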