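import Pool.Agent.Lib.MP_28303a_al.TW.Defs

/-! # Interface of the theorem on groups acting on trees

Every module is a statement `XStatement : Prop`, to be proved as
`theorem x (h : UsedStatement) ... : XStatement`.  Proofs: `Paper.md`.
Rows are written on the left of matrices: `x ᵥ* M`. -/

set_option autoImplicit false
set_option linter.unusedSectionVars false
set_option linter.unusedVariables false

namespace Pool.Agent.NegK.TW

universe u v w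

open Matrix MonoidAlgebra

/-! ## Part 1. Lattices with finite resolutions -/

/-- EULER (100 lines). -/
def EulerStatement : Prop :=
  ∀ (A : Type u) [Ring A] (n : ℕ) (K U Q Y : Type u) [AddCommGroup K] [Module A K]
    [AddCommGroup U] [Module A U] [AddCommGroup Q] [Module A Q] [AddCommGroup Y] [Module A Y]
    (f : K →ₗ[A] Q) (g : U →ₗ[A] Q), Module.Finite A K → Module.Projective A K →
    Module.Finite A U → Module.Projective A U → Function.Surjective f → Function.Surjective g →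
    HasFPRes A n Y → Nonempty (LinearMap.ker f ≃ₗ[A] Y) → Nonempty (LinearMap.ker g ≃ₗ[A] Y) →
    mc A K = mc A U

/-- LAT (120 lines, uses EULER, GEQ, INDA). -/
def LatStatement : Prop :=
  ∀ (A : Type u) [Ring A] (ι : Type) [Fintype ι] [DecidableEq ι]
    (α : Matrix ι ι (LaurentPolynomial A)), IsUnit α →
    ∀ (m d : ℕ) (L : Submodule A (ι → LaurentPolynomial A)), Ge A ι 0 ≤ L → L ≤ Ge A ι (-m) →
    L.map (rmul α) = L → HasFPRes A d (L.map (Ge A ι 0).mkQ) → ind α = 0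

/-- MRA (100 lines). -/
def MraStatement : Prop :=
  ∀ (A : Type u) [Ring A], RegCoh A → ∀ (ι κ : Type) [Fintype ι] [Fintype κ]
    (z : Matrix ι κ A), ∃ n, MRes n z

/-- MRB (120 lines). -/
def MrbStatement : Prop :=
  ∀ (k G H : Type u) [Ring k] [Group G] [Group H] (f : G →* H), Function.Injective f →
    ∀ (n : ℕ) (ι κ : Type) [Fintype ι] [Fintype κ] (z : Matrix ι κ (MonoidAlgebra k G)),
    MRes n z → MRes n (z.map (mdr k f))

/-- MRC (80 lines). -/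
def MrcStatement : Prop :=
  ∀ (A : Type u) [Ring A] (n : ℕ) (ι κ : Type) [Fintype ι] [Fintype κ] (z : Matrix ι κ A),
    MRes n z → HasFPRes A n (LinearMap.range z.vecMulLinear)

/-- COH1 (100 lines, uses MRA, MRB, MRC). -/
def Coh1Statement : Prop :=
  ∀ (k Γ : Type u) [Ring k] [Group Γ] (G : Subgroup Γ), RegCoh (MonoidAlgebra k G) →
    ∀ (ι κ : Type) [Fintype ι] [Fintype κ] (z : Matrix ι κ (MonoidAlgebra k Γ)) (g : κ → Γ),
    (∀ i j h, (z i j).coeff h ≠ 0 → h * g j ∈ G) →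
    ∃ n, HasFPRes (MonoidAlgebra k Γ) n (LinearMap.range z.vecMulLinear)

/-- COH (180 lines, uses COH1). -/
def CohStatement : Prop :=
  ∀ (k Γ D : Type u) [Ring k] [Group Γ] [MulAction Γ D] (J ι : Type) [Fintype J] [Fintype ι]
    (dg : J → D) (z : Matrix ι J (MonoidAlgebra k Γ)) (c : ι → D), (∀ i, Spt dg {c i} (z i)) →
    (∀ i, RegCoh (MonoidAlgebra k (MulAction.stabilizer Γ (c i)))) →
    ∃ n, HasFPRes (MonoidAlgebra k Γ) n (LinearMap.range z.vecMulLinear)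

/-- RCI (80 lines). -/
def RciStatement : Prop :=
  (∀ (A B : Type u) [Ring A] [Ring B], (A ≃+* B) → RegCoh A → RegCoh B) ∧
  (∀ (k Γ D : Type u) [Ring k] [Group Γ] [MulAction Γ D] (c : D) (h : Γ),
    RegCoh (MonoidAlgebra k (MulAction.stabilizer Γ c)) →
    RegCoh (MonoidAlgebra k (MulAction.stabilizer Γ (h • c))))

/-! ## Part 2. Chains -/

/-- FAM (150 lines). The family of all iterated components. -/
def FamStatement : Prop :=
  ∀ (k Γ D : Type u) [Ring k] [Group Γ] [MulAction Γ D] (J : Type) [Fintype J] [DecidableEq J]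
    (dg : J → D) (μ : Matrix J J (MonoidAlgebra k Γ)) (d : ℕ), ChainNil dg μ d →
    ∃ (Λ : Type) (_ : Fintype Λ) (_ : DecidableEq Λ) (z : Matrix Λ J (MonoidAlgebra k Γ))
      (N : Matrix Λ Λ ℤ) (c : Λ → D) (a : J → Λ), (∀ l, Spt dg {c l} (z l)) ∧
      (∀ l, ∃ (j : J) (h : Γ), c l = h • dg j) ∧
      z * μ = N.map (Int.castRingHom (MonoidAlgebra k Γ)) * z ∧ IsNilpotent N ∧
      ∀ j, z (a j) = Pi.single j 1

/-- FIN (200 lines, uses FAM, COH, RCI, LAT). -/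
def FinStatement : Prop :=
  ∀ (k Γ D : Type u) [Ring k] [Group Γ] [MulAction Γ D] (J : Type) [Fintype J] [DecidableEq J]
    (dg : J → D) (μ : Matrix J J (LG k Γ)) (d : ℕ), ChainNil dg μ d →
    (∀ j, RegCoh (MonoidAlgebra k (MulAction.stabilizer Γ (dg j)))) →
    ind ((1 - μ).map (swp k Γ)) = 0

/-- ES (250 lines). Elimination of the relation `R₀`. -/
def EsStatement : Prop :=
  ∀ (k Γ D : Type u) [Ring k] [Group Γ] [MulAction Γ D] (M : Type u) [AddCommGroup M]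
    (χ : Det1 (MonoidAlgebra k Γ) M) (R₀ R₁ : GRel Γ D), (∀ a b, R₀.R a b → ¬ R₁.R a b) →
    ∀ (J : Type) [Fintype J] [DecidableEq J] (dg : J → D) (μ : Matrix J J (MonoidAlgebra k Γ))
    (d : ℕ), Sup dg dg (fun a b => R₀.R a b ∨ R₁.R a b) μ → ChainNil dg μ d →
    ChainNil dg (part dg dg R₀.R μ) d ∧
    ∃ (J' : Type) (_ : Fintype J') (_ : DecidableEq J') (dg' : J' → Prs R₁)
      (μ' : Matrix J' J' (MonoidAlgebra k Γ)), Sup dg' dg' (nextRel R₀ R₁).R μ' ∧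
      ChainNil dg' μ' (d + 1) ∧
      χ.val (1 - μ) = χ.val (1 - part dg dg R₀.R μ) + χ.val (1 - μ')

/-- ELIMW (200 lines). Lazard elimination for a multiplicative set of letters. -/
def ElimwStatement : Prop :=
  ∀ (A : Type u) [Ring A] (M : Type u) [AddCommGroup M] (χ : Det1 A M) (J : Type) [Fintype J]
    [DecidableEq J] (L : Set (Matrix J J A)), (∀ m ∈ L, ∀ m' ∈ L, m * m' ∈ L) →
    (∀ m ∈ L, IsNilpotent m → χ.val (1 - m) = 0) →
    ∀ (d : ℕ) (l : List (Matrix J J A)), (∀ m ∈ l, m ∈ L) →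
    (∀ l' : List (Matrix J J A), (∀ m ∈ l', m ∈ l) → l'.length = d → l'.prod = 0) →
    χ.val (1 - l.sum) = 0

/-- LETT1 (120 lines). -/
def Lett1Statement : Prop :=
  ∀ (k Γ D : Type u) [Ring k] [Group Γ] [MulAction Γ D] (J : Type) [Fintype J] [DecidableEq J]
    (dg : J → D) (R : GRel Γ D) (m m' : Matrix J J (MonoidAlgebra k Γ)), Letter dg R m →
    Letter dg R m' → Letter dg R (m * m')

/-- STAT (200 lines, uses ELIMW, LETT1). -/
def StatStatement : Prop :=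
  ∀ (k Γ D : Type u) [Ring k] [Group Γ] [MulAction Γ D] (M : Type u) [AddCommGroup M]
    (χ : Det1 (MonoidAlgebra k Γ) M) (R : GRel Γ D),
    (∀ a b, R.R a b → MulAction.stabilizer Γ a = MulAction.stabilizer Γ b) →
    ∀ (J : Type) [Fintype J] [DecidableEq J] (dg : J → D),
    (∀ m : Matrix J J (MonoidAlgebra k Γ), Letter dg R m → IsNilpotent m → χ.val (1 - m) = 0) →
    ∀ (μ : Matrix J J (MonoidAlgebra k Γ)) (d : ℕ), Sup dg dg R.R μ → ChainNil dg μ d →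
    χ.val (1 - μ) = 0

/-- DEFO (120 lines). -/
def DefoStatement : Prop :=
  ∀ (S : BdSys.{u}) (k G : Type u) [Ring k] [Group G], NilPoly k G →
    ∀ (J : Type) [Fintype J] [DecidableEq J] (m : Matrix J J (LG k G)), IsNilpotent m →
    (gdet S k G).val (1 - m) = 0

/-- LETT2 (200 lines, uses DEFO). -/
def Lett2Statement : Prop :=
  ∀ (S : BdSys.{u}) (k Γ D : Type u) [Ring k] [Group Γ] [MulAction Γ D] (J : Type) [Fintype J]
    [DecidableEq J] (dg : J → D) (a b : D) (m : Matrix J J (LG k Γ)),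
    MulAction.stabilizer Γ a = MulAction.stabilizer Γ b → Sup dg dg (Orb Γ a b) m →
    IsNilpotent m → (∀ g : Γ, g • a = b →
      NilPoly k (MulAction.stabilizer Γ a ⊔ Subgroup.zpowers g : Subgroup Γ)) →
    (gdet S k Γ).val (1 - m) = 0

/-- CHEX (120 lines). Chains of pairs expand to chains with the same stabilizer. -/
def ChexStatement : Prop :=
  ∀ (Γ D : Type u) [Group Γ] [MulAction Γ D] (R R₀ R₁ : GRel Γ D),
    (∀ a b, R₀.R a b → R.R a b ∧ MulAction.stabilizer Γ a = MulAction.stabilizer Γ b) →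
    (∀ a b, R₁.R a b → R.R a b) → ∀ (l : ℕ) (p : ℕ → Prs R₁),
    (∀ j < l, (nextRel R₀ R₁).R (p j) (p (j + 1))) → ∃ (l' : ℕ) (c : ℕ → D), l + 1 ≤ l' ∧
      (∀ j < l', R.R (c j) (c (j + 1))) ∧ stabChain Γ l' c = stabChain Γ l p

/-- THBI (200 lines, uses FIN, RCI, ES, STAT, LETT2, CHEX). Induction on the rank. -/
def ThbiStatement : Prop :=
  ∀ (S : BdSys.{u}), IsInd S → ∀ (k Γ : Type u) [Ring k] [Group Γ] (hyp : Γ → Prop)
    (F : Set (Subgroup Γ)) (M₀ : ℕ) (ρ : Subgroup Γ → ℕ),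
    RankOK (fun H : Subgroup Γ => RegCoh (MonoidAlgebra k H)) (fun H : Subgroup Γ => NilPoly k H)
      hyp F M₀ ρ →
    ∀ (M : ℕ) (D : Type u) [MulAction Γ D] (R : GRel Γ D),
    (∀ (l : ℕ) (c : ℕ → D), (∀ j < l, R.R (c j) (c (j + 1))) → stabChain Γ l c ∈ F) →
    (∀ c : D, ∃ g : Γ, ρ (MulAction.stabilizer Γ (g • c)) ≤ M) →
    (∀ (c : D) (g : Γ), Relation.TransGen R.R c (g • c) → hyp g) →
    ∀ (J : Type) [Fintype J] [DecidableEq J] (dg : J → D) (μ : Matrix J J (LG k Γ)) (d : ℕ),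
    Sup dg dg R.R μ → ChainNil dg μ d → (gdet S k Γ).val (1 - μ) = 0

/-- THBO (120 lines, uses ES, CHEX, THBI). Induction on the length of the paths. -/
def ThboStatement : Prop :=
  ∀ (S : BdSys.{u}), IsInd S → ∀ (k Γ : Type u) [Ring k] [Group Γ] (hyp : Γ → Prop)
    (F : Set (Subgroup Γ)) (M₀ : ℕ) (ρ : Subgroup Γ → ℕ),
    RankOK (fun H : Subgroup Γ => RegCoh (MonoidAlgebra k H)) (fun H : Subgroup Γ => NilPoly k H)
      hyp F M₀ ρ →
    ∀ (m : ℕ) (D : Type u) [MulAction Γ D] (R : GRel Γ D),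
    (∀ (l : ℕ) (c : ℕ → D), m ≤ l → (∀ j < l, R.R (c j) (c (j + 1))) → stabChain Γ l c ∈ F) →
    (∀ (c : D) (g : Γ), Relation.TransGen R.R c (g • c) → hyp g) →
    ∀ (J : Type) [Fintype J] [DecidableEq J] (dg : J → D) (μ : Matrix J J (LG k Γ)) (d : ℕ),
    Sup dg dg R.R μ → ChainNil dg μ d → (gdet S k Γ).val (1 - μ) = 0

/-- CHN (250 lines). -/
def ChnStatement : Prop :=
  ∀ (k Γ 𝔻 : Type u) [Ring k] [Group Γ] [MulAction Γ 𝔻] (P : GRel Γ 𝔻), Levels P →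
    ∀ (J : Type) [Fintype J] [DecidableEq J] (dg : J → 𝔻) (ν : Matrix J J (MonoidAlgebra k Γ)),
    Sup dg dg P.R ν → IsUnit (1 - ν) →
    ∃ d : ℕ, ∀ (D : Type u) [MulAction Γ D] (π : D → 𝔻) (dg' : J → D),
      (∀ (g : Γ) c, π (g • c) = g • π c) → (∀ j, π (dg' j) = dg j) →
      (∀ (j : J) (n : ℕ), n ≤ d → ∀ p ∈ Wd ν j n, ∀ q ∈ Wd ν j n,
        p.1 • dg p.2 = q.1 • dg q.2 → p.1 • dg' p.2 = q.1 • dg' q.2) →
      ChainNil dg' ν d

/-- WDF (30 lines). -/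
def WdfStatement : Prop :=
  ∀ (k Γ : Type u) [Ring k] [Group Γ] (J : Type) [Fintype J] (ν : Matrix J J (MonoidAlgebra k Γ))
    (j : J) (n : ℕ), (Wd ν j n).Finite

/-- REF (200 lines, uses CHN, WDF, THBO). -/
def RefStatement : Prop :=
  ∀ (S : BdSys.{u}), IsInd S → ∀ (k Γ 𝔻 : Type u) [Ring k] [Group Γ] [MulAction Γ 𝔻]
    (P : GRel Γ 𝔻), Levels P → AbsCond k P → ∀ (J : Type) [Fintype J] [DecidableEq J]
    (dg : J → 𝔻) (ν : Matrix J J (LG k Γ)), Sup dg dg P.R ν → IsUnit (1 - ν) →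
    (gdet S k Γ).val (1 - ν) = 0

/-! ## Part 3. Graded matrices -/

/-- GINV (40 lines). -/
def GinvStatement : Prop :=
  ∀ (k Γ D : Type u) [Ring k] [Group Γ] [MulAction Γ D] (J J' : Type) [Fintype J]
    [DecidableEq J] [Fintype J'] [DecidableEq J'] (dg : J → D) (dg' : J' → D)
    (M : Matrix J J' (MonoidAlgebra k Γ)) (N : Matrix J' J (MonoidAlgebra k Γ)), M * N = 1 →
    N * M = 1 → Grd dg dg' M → Grd dg' dg N

/-- GR (200 lines, uses GINV). -/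
def GrStatement : Prop :=
  ∀ (S : BdSys.{u}) (k Γ D : Type u) [Ring k] [Group Γ] [MulAction Γ D] (J : Type) [Fintype J]
    [DecidableEq J] (dg : J → D) (β : Matrix J J (LG k Γ)), IsUnit β → Grd dg dg β →
    (gdet S k Γ).val β ∈ ⨆ j, img k (MulAction.stabilizer Γ (dg j))

/-- GCONJ (200 lines). -/
def GconjStatement : Prop :=
  ∀ (A B : Type u) [Ring A] [Ring B] (f : A →+* B), Function.Surjective (K0.map f) →
    ∀ (ι : Type) [Fintype ι] [DecidableEq ι] (e : Matrix ι ι B), e * e = e →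
    ∃ N : ℕ, ∀ n n' : ℕ, N ≤ n → n + N ≤ n' →
      ∃ (e₀ : Matrix (ι ⊕ (Fin n ⊕ Fin n')) (ι ⊕ (Fin n ⊕ Fin n')) A)
        (U W : Matrix (ι ⊕ (Fin n ⊕ Fin n')) (ι ⊕ (Fin n ⊕ Fin n')) B), e₀ * e₀ = e₀ ∧
        U * W = 1 ∧ W * U = 1 ∧
        U * fromBlocks e 0 0 (fromBlocks 1 0 0 0) * W = e₀.map f

/-- GRID (250 lines, uses GCONJ). -/
def GridStatement : Prop :=
  ∀ (k Γ D : Type u) [Ring k] [Group Γ] [MulAction Γ D] (J : Type) [Fintype J] [DecidableEq J]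
    (dg : J → D), (∀ j, NilLaur k (MulAction.stabilizer Γ (dg j))) →
    ∀ (e : Matrix J J (LG k Γ)), e * e = e → Grd dg dg e →
    ∃ (Ja Jb : Type) (_ : Fintype Ja) (_ : DecidableEq Ja) (_ : Fintype Jb)
      (_ : DecidableEq Jb) (da : Ja → D) (db : Jb → D)
      (e₀ : Matrix (J ⊕ (Ja ⊕ Jb)) (J ⊕ (Ja ⊕ Jb)) (MonoidAlgebra k Γ))
      (U W : Matrix (J ⊕ (Ja ⊕ Jb)) (J ⊕ (Ja ⊕ Jb)) (LG k Γ)),
      Grd (Sum.elim dg (Sum.elim da db)) (Sum.elim dg (Sum.elim da db)) U ∧ U * W = 1 ∧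
      W * U = 1 ∧ U * fromBlocks e 0 0 (fromBlocks 1 0 0 0) * W = e₀.map (cC k Γ)

/-- RECT (50 lines). Rectangular matrices. -/
def RectStatement : Prop :=
  ∀ (A : Type u) [Ring A] (M : Type u) [AddCommGroup M] (χ : Det1 A M) (ι κ : Type) [Fintype ι]
    [DecidableEq ι] [Fintype κ] [DecidableEq κ] (P P' : Matrix ι κ A) (Q Q' : Matrix κ ι A),
    P * Q = 1 → Q * P = 1 → P' * Q' = 1 → Q' * P' = 1 →
    (∀ α : Matrix κ κ A, IsUnit α → IsUnit (P * α * Q) ∧ χ.val (P * α * Q) = χ.val α) ∧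
    IsUnit (P * Q') ∧ IsUnit (Q' * P) ∧ χ.val (P * Q') = χ.val (Q' * P)

/-! ## Part 4. Trees -/

/-- HT (250 lines). Half trees. -/
def HtStatement : Prop :=
  ∀ (k Γ V E : Type u) [Ring k] [Group Γ] [MulAction Γ V] [MulAction Γ E] (T : OTree Γ V E)
    (JE JF JX : Type) [Fintype JE] [DecidableEq JE] [Fintype JF] [DecidableEq JF] [Fintype JX]
    [DecidableEq JX] (dE : JE → E) (dF : JF → V) (dX : JX → V)
    (δ : Matrix JE JX (MonoidAlgebra k Γ)) (w : Matrix JF JX (MonoidAlgebra k Γ))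
    (q : Matrix JX JE (MonoidAlgebra k Γ)) (r : Matrix JX JF (MonoidAlgebra k Γ)),
    TLin T dE dF dX δ w q r →
    T.pE dE dX δ q * T.pE dE dX δ q = T.pE dE dX δ q ∧
    (∀ (e : E) (y : JX → MonoidAlgebra k Γ), Spt dX (T.H e) y →
      res dE {e} (y ᵥ* q) ᵥ* T.pE dE dX δ q = res dE {e} (y ᵥ* q)) ∧
    (∀ (e : E) (y : JX → MonoidAlgebra k Γ), Spt dX (T.H e)ᶜ y →
      res dE {e} (y ᵥ* q) ᵥ* T.pE dE dX δ q = 0) ∧
    (∀ (e : E) (x : JE → MonoidAlgebra k Γ), Spt dE {e} x → x ᵥ* T.pE dE dX δ q = x →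
      Spt dE {e' | e' ≠ e ∧ T.t e' ∉ T.H e} (x ᵥ* T.dO dE dX δ ᵥ* q) ∧
      Spt dF (T.H e)ᶜ (x ᵥ* T.dO dE dX δ ᵥ* r)) ∧
    (∀ (e : E) (x : JE → MonoidAlgebra k Γ), Spt dE {e} x → x ᵥ* T.pE dE dX δ q = 0 →
      Spt dE {e' | e' ≠ e ∧ T.t e' ∈ T.H e} (x ᵥ* T.dT dE dX δ ᵥ* q) ∧
      Spt dF (T.H e) (x ᵥ* T.dT dE dX δ ᵥ* r))

/-- LAM (200 lines, uses HT). -/
def LamStatement : Prop :=
  ∀ (k Γ V E : Type u) [Ring k] [Group Γ] [MulAction Γ V] [MulAction Γ E] (T : OTree Γ V E)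
    (JE JF JX : Type) [Fintype JE] [DecidableEq JE] [Fintype JF] [DecidableEq JF] [Fintype JX]
    [DecidableEq JX] (dE : JE → E) (dF : JF → V) (dX : JX → V)
    (δ : Matrix JE JX (MonoidAlgebra k Γ)) (w : Matrix JF JX (MonoidAlgebra k Γ))
    (q : Matrix JX JE (MonoidAlgebra k Γ)) (r : Matrix JX JF (MonoidAlgebra k Γ)),
    TLin T dE dF dX δ w q r →
    T.dT dE dX δ + T.dO dE dX δ = δ ∧
    T.ds dE dX δ q * (T.qT dE dX q + T.qO dE dX q) = 1 ∧
    T.ds dE dX δ q * rG dF dX r = 0 ∧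
    w * (T.qT dE dX q + T.qO dE dX q) = 0 ∧ w * rG dF dX r = 1 ∧
    (T.qT dE dX q + T.qO dE dX q) * T.ds dE dX δ q + rG dF dX r * w = 1 ∧
    T.qT dE dX q * T.pE dE dX δ q = T.qT dE dX q ∧ T.qO dE dX q * T.pE dE dX δ q = 0

/-- NUS (120 lines, uses HT). -/
def NusStatement : Prop :=
  ∀ (k Γ V E : Type u) [Ring k] [Group Γ] [MulAction Γ V] [MulAction Γ E] (T : OTree Γ V E)
    (JE JF JX : Type) [Fintype JE] [DecidableEq JE] [Fintype JF] [DecidableEq JF] [Fintype JX]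
    [DecidableEq JX] (dE : JE → E) (dF : JF → V) (dX : JX → V)
    (δ : Matrix JE JX (MonoidAlgebra k Γ)) (w : Matrix JF JX (MonoidAlgebra k Γ))
    (q : Matrix JX JE (MonoidAlgebra k Γ)) (r : Matrix JX JF (MonoidAlgebra k Γ)),
    TLin T dE dF dX δ w q r → Sup (dOr dE) (dOr dE) T.prev.R (T.nu dE dX δ q)

/-- NUD (100 lines, uses LAM). -/
def NudStatement : Prop :=
  ∀ (k Γ V E : Type u) [Ring k] [Group Γ] [MulAction Γ V] [MulAction Γ E] (T : OTree Γ V E)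
    (JE JF JX : Type) [Fintype JE] [DecidableEq JE] [Fintype JF] [DecidableEq JF] [Fintype JX]
    [DecidableEq JX] (dE : JE → E) (dF : JF → V) (dX : JX → V)
    (δ : Matrix JE JX (MonoidAlgebra k Γ)) (w : Matrix JF JX (MonoidAlgebra k Γ))
    (q : Matrix JX JE (MonoidAlgebra k Γ)) (r : Matrix JX JF (MonoidAlgebra k Γ)),
    TLin T dE dF dX δ w q r → IsUnit (1 - T.nu dE dX δ q) ∧
    ∀ (M : Type u) [AddCommGroup M] (χ : Det1 (MonoidAlgebra k Γ) M),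
      IsUnit (fromRows δ w * fromCols (T.qT dE dX q + T.qO dE dX q) (rG dF dX r)) ∧
      χ.val (fromRows δ w * fromCols (T.qT dE dX q + T.qO dE dX q) (rG dF dX r)) =
        χ.val (1 - T.nu dE dX δ q)

/-- LAMG (200 lines, uses LAM, NUD, RECT, GR). -/
def LamgStatement : Prop :=
  ∀ (S : BdSys.{u}) (k Γ V E : Type u) [Ring k] [Group Γ] [MulAction Γ V] [MulAction Γ E]
    (T : OTree Γ V E) (JE JF JX : Type) [Fintype JE] [DecidableEq JE] [Fintype JF]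
    [DecidableEq JF] [Fintype JX] [DecidableEq JX] (dE : JE → E) (dF : JF → V) (dX : JX → V)
    (δ : Matrix JE JX (LG k Γ)) (w : Matrix JF JX (LG k Γ)) (q : Matrix JX JE (LG k Γ))
    (r : Matrix JX JF (LG k Γ)), TLin T dE dF dX δ w q r →
    ∀ (C : Matrix JX (JE ⊕ JF) (MonoidAlgebra k Γ)) (C' : Matrix (JE ⊕ JF) JX (MonoidAlgebra k Γ)),
    C * C' = 1 → C' * C = 1 → ∀ π₀ : Matrix JE JE (MonoidAlgebra k Γ),
    T.pE dE dX δ q = π₀.map (cC k Γ) →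
    (gdet S k Γ).val (fromRows δ w * C.map (cC k Γ)) - (gdet S k Γ).val (1 - T.nu dE dX δ q) ∈
      ⨆ j, img k (MulAction.stabilizer Γ (dX j))

/-- EDG (250 lines, uses HT, GRID, GR). -/
def EdgStatement : Prop :=
  ∀ (S : BdSys.{u}) (k Γ V E : Type u) [Ring k] [Group Γ] [MulAction Γ V] [MulAction Γ E]
    (T : OTree Γ V E), (∀ e : E, NilLaur k (MulAction.stabilizer Γ e)) →
    ∀ (JE JF JX : Type) [Fintype JE] [DecidableEq JE] [Fintype JF]
    [DecidableEq JF] [Fintype JX] [DecidableEq JX] (dE : JE → E) (dF : JF → V) (dX : JX → V)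
    (δ : Matrix JE JX (LG k Γ)) (w : Matrix JF JX (LG k Γ)) (q : Matrix JX JE (LG k Γ))
    (r : Matrix JX JF (LG k Γ)), TLin T dE dF dX δ w q r →
    ∀ (C : Matrix JX (JE ⊕ JF) (MonoidAlgebra k Γ)) (C' : Matrix (JE ⊕ JF) JX (MonoidAlgebra k Γ)),
    C * C' = 1 → C' * C = 1 →
    ∃ (JE₁ JX₁ : Type) (_ : Fintype JE₁) (_ : DecidableEq JE₁) (_ : Fintype JX₁)
      (_ : DecidableEq JX₁) (dE₁ : JE₁ → E) (dX₁ : JX₁ → V) (δ₁ : Matrix JE₁ JX₁ (LG k Γ))
      (w₁ : Matrix JF JX₁ (LG k Γ)) (q₁ : Matrix JX₁ JE₁ (LG k Γ)) (r₁ : Matrix JX₁ JF (LG k Γ))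
      (C₁ : Matrix JX₁ (JE₁ ⊕ JF) (MonoidAlgebra k Γ))
      (C₁' : Matrix (JE₁ ⊕ JF) JX₁ (MonoidAlgebra k Γ))
      (π₀ : Matrix JE₁ JE₁ (MonoidAlgebra k Γ)),
      TLin T dE₁ dF dX₁ δ₁ w₁ q₁ r₁ ∧ C₁ * C₁' = 1 ∧ C₁' * C₁ = 1 ∧
      T.pE dE₁ dX₁ δ₁ q₁ = π₀.map (cC k Γ) ∧
      (gdet S k Γ).val (fromRows δ₁ w₁ * C₁.map (cC k Γ)) -
        (gdet S k Γ).val (fromRows δ w * C.map (cC k Γ)) ∈
          ⨆ e : E, img k (MulAction.stabilizer Γ e)

/-- PSI (200 lines). -/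
def PsiStatement : Prop :=
  ∀ (k Γ V E : Type u) [Ring k] [Group Γ] [MulAction Γ V] [MulAction Γ E]
    (T : OTree Γ V E) (b : V), T.Subtrees b →
    ∀ (n : ℕ) (β : Matrix (Fin n) (Fin n) (MonoidAlgebra k Γ)), IsUnit β →
    ∃ (JE JX : Type) (_ : Fintype JE) (_ : DecidableEq JE) (_ : Fintype JX)
      (_ : DecidableEq JX) (dE : JE → E) (dX : JX → V) (δ : Matrix JE JX (MonoidAlgebra k Γ))
      (w : Matrix (Fin n) JX (MonoidAlgebra k Γ)) (q : Matrix JX JE (MonoidAlgebra k Γ))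
      (r : Matrix JX (Fin n) (MonoidAlgebra k Γ))
      (C : Matrix JX (JE ⊕ Fin n) ℤ) (C' : Matrix (JE ⊕ Fin n) JX ℤ),
      TLin T dE (fun _ : Fin n => b) dX δ w q r ∧ C * C' = 1 ∧ C' * C = 1 ∧
      ∀ (M : Type u) [AddCommGroup M] (χ : Det1 (MonoidAlgebra k Γ) M),
        χ.val (fromRows δ w * C.map (Int.castRingHom (MonoidAlgebra k Γ))) = χ.val β

/-- GEO (120 lines, uses PSI, EDG, LAMG, NUS, NUD). -/
def GeoStatement : Prop :=
  ∀ (S : BdSys.{u}) (k Γ V E : Type u) [Ring k] [Group Γ] [MulAction Γ V] [MulAction Γ E]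
    (T : OTree Γ V E) (b : V), T.Subtrees b → (∀ e : E, NilLaur k (MulAction.stabilizer Γ e)) →
    ∀ X : AddSubgroup (K0 (MonoidAlgebra k Γ)), (∀ v : V, img k (MulAction.stabilizer Γ v) ≤ X) →
    (∀ (J : Type) [Fintype J] [DecidableEq J] (dg : J → Dt E) (ν : Matrix J J (LG k Γ)),
      Sup dg dg T.prev.R ν → IsUnit (1 - ν) → (gdet S k Γ).val (1 - ν) ∈ X) → X = ⊤

/-- THA (60 lines, uses BD, GEO, REF). -/
def ThaStatement : Prop :=
  ∀ (k Γ V E : Type u) [Ring k] [Group Γ] [MulAction Γ V] [MulAction Γ E]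
    (T : OTree Γ V E) (b : V), T.Subtrees b → (∀ e : E, NilLaur k (MulAction.stabilizer Γ e)) →
    Levels T.prev → AbsCond k T.prev → ⨆ v : V, img k (MulAction.stabilizer Γ v) = ⊤

end Pool.Agent.NegK.TW
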