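import Pool.Agent.Lib.MP_28303a_al.TW.Base

/-! # Definitions of the theorem on groups acting on trees -/

set_option autoImplicit false
set_option linter.unusedSectionVars false
set_option linter.unusedVariables false

namespace Pool.Agent.NegK.TW

universe u v w

open Matrix MonoidAlgebra

/-! ### The determinant `GL(k[s, s⁻¹][Γ]) → K₀(k[Γ])` -/

/-- Finitely generated submodules of finitely generated free modules have finite resolutions by
finitely generated projective modules. -/
def RegCoh (A : Type u) [Ring A] : Prop :=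
  ∀ (n : ℕ) (N : Submodule A (Fin n → A)), N.FG → ∃ d, HasFPRes A d N

/-- `k[s, s⁻¹][Γ] → k[Γ][s, s⁻¹]`. -/
noncomputable abbrev swp (k Γ : Type u) [Ring k] [Group Γ] :
    MonoidAlgebra (LaurentPolynomial k) Γ →+* LaurentPolynomial (MonoidAlgebra k Γ) :=
  (H64.swapEquiv k Γ : MonoidAlgebra (LaurentPolynomial k) Γ →+*
    LaurentPolynomial (MonoidAlgebra k Γ))

/-- The boundary map on invertible matrices over `k[s, s⁻¹][Γ]`. -/
noncomputable def gdet (S : BdSys.{u}) (k Γ : Type u) [Ring k] [Group Γ] :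
    Det1 (MonoidAlgebra (LaurentPolynomial k) Γ) (K0 (MonoidAlgebra k Γ)) :=
  (S.δ (MonoidAlgebra k Γ)).comap (swp k Γ)

/-- Change of coefficients of a group ring. -/
noncomputable abbrev cmap (Γ : Type u) [Group Γ] {k k' : Type u} [Ring k] [Ring k'] (f : k →+* k') :
    MonoidAlgebra k Γ →+* MonoidAlgebra k' Γ := MonoidAlgebra.mapRingHom Γ f

/-- `K₀(k[G]) → K₀(k[t][G])` is onto. -/
def NilPoly (k G : Type u) [Ring k] [Group G] : Prop :=
  Function.Surjective (K0.map (cmap G (Polynomial.C : k →+* Polynomial k)))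

/-- `K₀(k[G]) → K₀(k[t, t⁻¹][G])` is onto. -/
def NilLaur (k G : Type u) [Ring k] [Group G] : Prop :=
  Function.Surjective (K0.map (cmap G (LaurentPolynomial.C : k →+* LaurentPolynomial k)))

/-- `k[s, s⁻¹][Γ]`. -/
abbrev LG (k Γ : Type u) [Ring k] [Group Γ] : Type u := MonoidAlgebra (LaurentPolynomial k) Γ

/-- The inclusion of the constants `k[Γ] → k[s, s⁻¹][Γ]`. -/
noncomputable abbrev cC (k Γ : Type u) [Ring k] [Group Γ] : MonoidAlgebra k Γ →+* LG k Γ :=
  cmap Γ (LaurentPolynomial.C : k →+* LaurentPolynomial k)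

/-- The image of `K₀(k[G])` in `K₀(k[Γ])`, for a subgroup `G` of `Γ`. -/
noncomputable def img (k : Type u) [Ring k] {Γ : Type u} [Group Γ] (G : Subgroup Γ) :
    AddSubgroup (K0 (MonoidAlgebra k Γ)) := (K0.map (mdr k G.subtype)).range

/-- The boundary maps of `S` are given by `ind`. -/
def IsInd (S : BdSys.{u}) : Prop :=
  ∀ (B : Type u) [Ring B] (ι : Type) [Fintype ι] [DecidableEq ι]
    (α : Matrix ι ι (LaurentPolynomial B)), (S.δ B).val α = ind α

theorem cmap_single {k k' Γ : Type u} [Ring k] [Ring k'] [Group Γ] (f : k →+* k') (g : Γ) (r : k) :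
    cmap Γ f (single g r) = single g (f r) := MonoidAlgebra.mapRingHom_single _ _ _

theorem swp_nat_coeff {k k' Γ : Type u} [Ring k] [Ring k'] [Group Γ] (φ : k →+* k') :
    (lmap (cmap Γ φ)).comp (swp k Γ) = (swp k' Γ).comp (cmap Γ (lmap φ)) := by
  have key : ∀ (g : Γ) (x : LaurentPolynomial k),
      lmap (cmap Γ φ) (swp k Γ (single g x)) = swp k' Γ (single g (lmap φ x)) := by
    intro g x
    induction x using AddMonoidAlgebra.induction_linear with
    | zero => rw [MonoidAlgebra.single_zero, map_zero, map_zero, map_zero,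
        MonoidAlgebra.single_zero, map_zero]
    | add x y hx hy => rw [MonoidAlgebra.single_add, map_add, map_add, map_add,
        MonoidAlgebra.single_add, map_add, hx, hy]
    | single n r =>
      have h1 : lmap φ (AddMonoidAlgebra.single n r) = AddMonoidAlgebra.single n (φ r) :=
        AddMonoidAlgebra.mapRingHom_single _ _ _
      have h2 : swp k Γ (single g (AddMonoidAlgebra.single n r)) =
          AddMonoidAlgebra.single n (single g r) := swap_single k g n r
      have h3 : swp k' Γ (single g (AddMonoidAlgebra.single n (φ r))) =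
          AddMonoidAlgebra.single n (single g (φ r)) := swap_single k' g n (φ r)
      rw [h1, h2, h3]
      show AddMonoidAlgebra.mapRingHom ℤ (cmap Γ φ) (AddMonoidAlgebra.single n (single g r)) = _
      rw [AddMonoidAlgebra.mapRingHom_single, cmap_single]
  refine MonoidAlgebra.ringHom_ext (fun x => ?_) (fun g => ?_)
  · simp only [RingHom.comp_apply, cmap_single]
    exact key 1 x
  · simp only [RingHom.comp_apply, cmap_single]
    exact key g 1

section gdet

variable (S : BdSys.{u}) {k Γ : Type u} [Ring k] [Group Γ] {J : Type} [Fintype J] [DecidableEq J]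

theorem gdet_val (α : Matrix J J (MonoidAlgebra (LaurentPolynomial k) Γ)) :
    (gdet S k Γ).val α = (S.δ (MonoidAlgebra k Γ)).val (α.map (swp k Γ)) := rfl

/-- Naturality in the group. -/
theorem gdet_group {Γ' : Type u} [Group Γ'] (f : Γ →* Γ')
    (α : Matrix J J (MonoidAlgebra (LaurentPolynomial k) Γ)) (hα : IsUnit α) :
    (gdet S k Γ').val (α.map (mdr (LaurentPolynomial k) f)) =
      K0.map (mdr k f) ((gdet S k Γ).val α) := by
  have h1 := S.nat (mdr k f) (α.map (swp k Γ)) (hα.map (swp k Γ).mapMatrix)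
  rw [gdet_val, gdet_val, ← h1, Matrix.map_map, Matrix.map_map]
  congr 2
  funext x
  exact (RingHom.congr_fun (swap_natural k f) x).symm

/-- Naturality in the coefficients. -/
theorem gdet_coeff {k' : Type u} [Ring k'] (φ : k →+* k')
    (α : Matrix J J (MonoidAlgebra (LaurentPolynomial k) Γ)) (hα : IsUnit α) :
    (gdet S k' Γ).val (α.map (cmap Γ (lmap φ))) = K0.map (cmap Γ φ) ((gdet S k Γ).val α) := by
  have h1 := S.nat (cmap Γ φ) (α.map (swp k Γ)) (hα.map (swp k Γ).mapMatrix)
  rw [gdet_val, gdet_val, ← h1, Matrix.map_map, Matrix.map_map]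
  congr 2
  funext x
  exact (RingHom.congr_fun (swp_nat_coeff φ) x).symm

theorem swp_cst : (swp k Γ).comp (cmap Γ (LaurentPolynomial.C : k →+* LaurentPolynomial k)) =
    LaurentPolynomial.C := by
  refine MonoidAlgebra.ringHom_ext (fun r => ?_) (fun g => ?_)
  · simp only [RingHom.comp_apply, cmap_single]
    exact swap_single k 1 0 r
  · simp only [RingHom.comp_apply, cmap_single]
    exact swap_single k g 0 1

/-- Constant matrices. -/
theorem gdet_const (α : Matrix J J (MonoidAlgebra k Γ)) (hα : IsUnit α) :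
    (gdet S k Γ).val (α.map (cmap Γ (LaurentPolynomial.C : k →+* LaurentPolynomial k))) = 0 := by
  rw [gdet_val, Matrix.map_map, ← S.const α hα]
  congr 2
  funext x
  exact RingHom.congr_fun swp_cst x

/-- The element `s` of `k[s, s⁻¹][Γ]`. -/
noncomputable def sEl (k Γ : Type u) [Ring k] [Group Γ] : MonoidAlgebra (LaurentPolynomial k) Γ :=
  single 1 (LaurentPolynomial.T 1)

/-- The invertible matrix `1 - p + p s` of an idempotent matrix `p` over `k[Γ]`. -/
noncomputable def pMat (p : Matrix J J (MonoidAlgebra k Γ)) :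
    Matrix J J (MonoidAlgebra (LaurentPolynomial k) Γ) :=
  1 - p.map (cmap Γ (LaurentPolynomial.C : k →+* LaurentPolynomial k)) +
    p.map (fun x => cmap Γ (LaurentPolynomial.C : k →+* LaurentPolynomial k) x * sEl k Γ)

theorem pMat_map (p : Matrix J J (MonoidAlgebra k Γ)) :
    (pMat p).map (swp k Γ) = 1 - p.map LaurentPolynomial.C +
      p.map (fun a => LaurentPolynomial.C a * LaurentPolynomial.T 1) := by
  have h1 : ∀ x, swp k Γ (cmap Γ (LaurentPolynomial.C : k →+* LaurentPolynomial k) x) =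
      LaurentPolynomial.C x := fun x => RingHom.congr_fun swp_cst x
  have h2 : swp k Γ (sEl k Γ) = LaurentPolynomial.T 1 := swap_single k 1 1 1
  ext1 i j
  unfold pMat
  simp only [Matrix.map_apply, Matrix.add_apply, Matrix.sub_apply, map_add, map_sub, map_mul, h1,
    h2]
  congr 2
  by_cases hij : i = j
  · subst hij
    rw [Matrix.one_apply_eq, Matrix.one_apply_eq, map_one]
  · rw [Matrix.one_apply_ne hij, Matrix.one_apply_ne hij, map_zero]

include S in
theorem isUnit_pMat (p : Matrix J J (MonoidAlgebra k Γ)) (hp : p * p = p) : IsUnit (pMat p) := by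
  have h1 := (S.proj p hp).1
  rw [← pMat_map] at h1
  have h2 := h1.map ((H64.swapEquiv k Γ).symm : LaurentPolynomial (MonoidAlgebra k Γ) →+*
    MonoidAlgebra (LaurentPolynomial k) Γ).mapMatrix
  have h3 : ((H64.swapEquiv k Γ).symm : LaurentPolynomial (MonoidAlgebra k Γ) →+*
    MonoidAlgebra (LaurentPolynomial k) Γ).mapMatrix ((pMat p).map (swp k Γ)) = pMat p := by
    ext1 i j
    exact (H64.swapEquiv k Γ).symm_apply_apply _
  rwa [h3] at h2

theorem gdet_pMat (p : Matrix J J (MonoidAlgebra k Γ)) (hp : p * p = p) :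
    (gdet S k Γ).val (pMat p) = mcls p hp := by
  rw [gdet_val, pMat_map]
  exact (S.proj p hp).2

end gdet

/-! ### Iterated components -/

section chains

variable {k : Type u} [Ring k] {Γ : Type u} [Group Γ] {D : Type u} [MulAction Γ D]
variable {J : Type} [Fintype J]

/-- Iterated components: apply `μ`, take the part of degree `c`, and go on with the list. -/
noncomputable def itc (dg : J → D) (μ : Matrix J J (MonoidAlgebra k Γ)) :
    List D → (J → MonoidAlgebra k Γ) → (J → MonoidAlgebra k Γ)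
  | [], x => x
  | c :: l, x => itc dg μ l (res dg {c} (x ᵥ* μ))

/-- All iterated components of length `d` vanish. -/
def ChainNil (dg : J → D) (μ : Matrix J J (MonoidAlgebra k Γ)) (d : ℕ) : Prop :=
  ∀ (l : List D), l.length = d → ∀ x, itc dg μ l x = 0

/-- The elements `(h, l)` (that is `h e_l`) which can occur in `e_j ν^n`. -/
def Wd (ν : Matrix J J (MonoidAlgebra k Γ)) (j : J) : ℕ → Set (Γ × J)
  | 0 => {(1, j)}
  | n + 1 => {p | ∃ q ∈ Wd ν j n, ∃ s, (ν q.2 p.2).coeff s ≠ 0 ∧ p.1 = q.1 * s}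

end chains

/-- Representatives `ρ j` of the orbits of the degrees, with `g j • deg (ρ j) = deg j`. -/
theorem exists_od {Γ : Type u} [Group Γ] {D : Type u} [MulAction Γ D] {J : Type} (dg : J → D) :
    ∃ (ρ : J → J) (g : J → Γ), (∀ j, g j • dg (ρ j) = dg j) ∧
      (∀ i j (h : Γ), h • dg i = dg j → ρ i = ρ j) ∧ ∀ j, ρ (ρ j) = ρ j := by
  classical
  let c : J → Quotient (MulAction.orbitRel Γ D) := fun j => Quotient.mk _ (dg j)
  let ρ : J → J := fun j => (⟨j, rfl⟩ : ∃ i, c i = c j).choose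
  have hρ : ∀ j, c (ρ j) = c j := fun j => (⟨j, rfl⟩ : ∃ i, c i = c j).choose_spec
  have hg : ∀ j, ∃ g : Γ, g • dg (ρ j) = dg j := by
    intro j
    have h1 : (MulAction.orbitRel Γ D).r (dg j) (dg (ρ j)) := Quotient.exact (hρ j).symm
    exact h1
  choose g hg using hg
  have hc : ∀ i j (h : Γ), h • dg i = dg j → c i = c j := by
    intro i j h hh
    refine Quotient.sound ?_
    show dg i ∈ MulAction.orbit Γ (dg j)
    exact ⟨h⁻¹, by show h⁻¹ • dg j = dg i; rw [← hh, inv_smul_smul]⟩
  have hr : ∀ i j, c i = c j → ρ i = ρ j := by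
    intro i j hij
    have : (fun l => c l = c i) = (fun l => c l = c j) := by rw [hij]
    show Exists.choose _ = Exists.choose _
    congr 1
  exact ⟨ρ, g, hg, fun i j h hh => hr i j (hc i j h hh), fun j => hr _ _ (hρ j)⟩

/-- An invariant relation on a set with group action. -/
structure GRel (Γ : Type u) [Group Γ] (D : Type u) [MulAction Γ D] where
  R : D → D → Prop
  inv : Invar Γ R

/-- The set of pairs `(a, b)` with `R a b`. -/
@[ext] structure Prs {Γ : Type u} [Group Γ] {D : Type u} [MulAction Γ D] (R : GRel Γ D) :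
    Type u where
  fst : D
  snd : D
  rel : R.R fst snd

instance {Γ : Type u} [Group Γ] {D : Type u} [MulAction Γ D] (R : GRel Γ D) :
    MulAction Γ (Prs R) where
  smul g p := ⟨g • p.fst, g • p.snd, R.inv g _ _ p.rel⟩
  one_smul p := Prs.ext (one_smul _ _) (one_smul _ _)
  mul_smul g h p := Prs.ext (mul_smul _ _ _) (mul_smul _ _ _)

theorem prs_smul_fst {Γ : Type u} [Group Γ] {D : Type u} [MulAction Γ D] {R : GRel Γ D} (g : Γ)
    (p : Prs R) : (g • p).fst = g • p.fst := rfl

theorem prs_smul_snd {Γ : Type u} [Group Γ] {D : Type u} [MulAction Γ D] {R : GRel Γ D} (g : Γ)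
    (p : Prs R) : (g • p).snd = g • p.snd := rfl

theorem stab_prs {Γ : Type u} [Group Γ] {D : Type u} [MulAction Γ D] {R : GRel Γ D}
    (p : Prs R) : MulAction.stabilizer Γ p =
      MulAction.stabilizer Γ p.fst ⊓ MulAction.stabilizer Γ p.snd := by
  ext g
  rw [Subgroup.mem_inf, MulAction.mem_stabilizer_iff, MulAction.mem_stabilizer_iff,
    MulAction.mem_stabilizer_iff]
  exact ⟨fun h => ⟨congrArg Prs.fst h, congrArg Prs.snd h⟩, fun h => Prs.ext h.1 h.2⟩

/-- Pairs `(a, b)`, `(c, d)` of `R₁` with `b R₀* c`. -/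
def nextRel {Γ : Type u} [Group Γ] {D : Type u} [MulAction Γ D] (R₀ R₁ : GRel Γ D) :
    GRel Γ (Prs R₁) where
  R p q := Relation.ReflTransGen R₀.R p.snd q.fst
  inv := by
    intro g p q h
    have : ∀ a b, Relation.ReflTransGen R₀.R a b → Relation.ReflTransGen R₀.R (g • a) (g • b) := by
      intro a b h
      induction h with
      | refl => exact Relation.ReflTransGen.refl
      | tail _ h2 ih => exact ih.tail (R₀.inv g _ _ h2)
    exact this _ _ h

/-- The intersection of the stabilizers of `c 0, ..., c l`. -/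
def stabChain (Γ : Type u) [Group Γ] {D : Type u} [MulAction Γ D] (l : ℕ) (c : ℕ → D) :
    Subgroup Γ := ⨅ j : Fin (l + 1), MulAction.stabilizer Γ (c j)

/-- The conditions on a family `F` of subgroups with a rank function `ρ` bounded by `M`;
`hyp g` means that `g` is hyperbolic. -/
structure RankOK {Γ : Type u} [Group Γ] (P Q : Subgroup Γ → Prop) (hyp : Γ → Prop)
    (F : Set (Subgroup Γ)) (M : ℕ) (ρ : Subgroup Γ → ℕ) : Prop where
  le : ∀ S ∈ F, ρ S ≤ M
  coh : ∀ S ∈ F, ρ S = 0 → P S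
  mono : ∀ S ∈ F, ∀ S' ∈ F, S ≤ S' → ρ S ≤ ρ S'
  strict : ∀ S ∈ F, ∀ S' ∈ F, S < S' → ρ S' ≠ 0 → ρ S < ρ S'
  nil : ∀ S ∈ F, ρ S ≠ 0 → ∀ g : Γ, hyp g → S.map (MulAut.conj g).toMonoidHom = S →
    Q (S ⊔ Subgroup.zpowers g)

/-- Intersections of the subgroups `g j (K (i j)) (g j)⁻¹` along `P`-chains `η 0, ..., η l` with
`l ≥ m` and `g j • ε (i j) = η j`. -/
def PathSub {Γ : Type u} [Group Γ] {𝔻 : Type u} [MulAction Γ 𝔻] (P : GRel Γ 𝔻) {ι : Type}
    (ε : ι → 𝔻) (K : ι → Subgroup Γ) (m : ℕ) : Set (Subgroup Γ) :=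
  {S | ∃ l, m ≤ l ∧ ∃ (η : ℕ → 𝔻) (i : ℕ → ι) (g : ℕ → Γ),
    (∀ j < l, P.R (η j) (η (j + 1))) ∧ (∀ j ≤ l, g j • ε (i j) = η j) ∧
    S = ⨅ j : Fin (l + 1), (K (i j)).map (MulAut.conj (g j)).toMonoidHom}

/-- The condition on the path stabilizers, in abstract form. -/
def AbsCond (k : Type u) [Ring k] {Γ : Type u} [Group Γ] {𝔻 : Type u} [MulAction Γ 𝔻]
    (P : GRel Γ 𝔻) : Prop :=
  ∀ (ι : Type) [Finite ι] (ε : ι → 𝔻) (K : ι → Subgroup Γ), (∀ i, (K i).FG) →
    (∀ i, K i ≤ MulAction.stabilizer Γ (ε i)) →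
    ∃ (K' : ι → Subgroup Γ) (m M : ℕ) (ρ : Subgroup Γ → ℕ),
      (∀ i, K i ≤ K' i ∧ K' i ≤ MulAction.stabilizer Γ (ε i)) ∧
      RankOK (fun S => RegCoh (MonoidAlgebra k S)) (fun S => NilPoly k S)
        (fun g => ∃ η : 𝔻, Relation.TransGen P.R η (g • η)) (PathSub P ε K' m) M ρ

/-- The transitions of the `Γ`-orbit of the pair `(a, b)`. -/
def Orb (Γ : Type u) [Group Γ] {D : Type u} [MulAction Γ D] (a b : D) : D → D → Prop :=
  fun c c' => ∃ h : Γ, h • a = c ∧ h • b = c'

/-- Matrices with transitions in one orbit of pairs `(a, b)` with the same stabilizer, `b` being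
reachable from `a` by the relation `R`. -/
def Letter {k : Type u} [Ring k] {Γ : Type u} [Group Γ] {D : Type u} [MulAction Γ D] {J : Type}
    (dg : J → D) (R : GRel Γ D) (m : Matrix J J (MonoidAlgebra k Γ)) : Prop :=
  m = 0 ∨ ∃ a b : D, Relation.TransGen R.R a b ∧
    MulAction.stabilizer Γ a = MulAction.stabilizer Γ b ∧ Sup dg dg (Orb Γ a b) m

/-! ### Finite resolutions in terms of matrices -/

/-- The module generated by the rows of `z` has a finite resolution, in terms of matrices. -/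
def MRes {A : Type u} [Ring A] : ℕ → ∀ {ι κ : Type} [Fintype ι] [Fintype κ], Matrix ι κ A → Prop
  | 0, ι, _, _, _, z => ∃ e : Matrix ι ι A, e * e = e ∧ ∀ x : ι → A, x ᵥ* z = 0 ↔ x ᵥ* e = x
  | n + 1, ι, _, _, _, z => ∃ (μ : Type) (_ : Fintype μ) (y : Matrix μ ι A),
      (∀ x : ι → A, x ᵥ* z = 0 ↔ ∃ w : μ → A, w ᵥ* y = x) ∧ MRes n y

/-! ### Trees -/

/-- A tree with an action of `Γ` without inversions: vertices `V`, edges `E` with origin `o` and
terminus `t`; `H e` is the set of vertices on the side of `t e` of the tree cut at `e`. -/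
structure OTree (Γ : Type u) [Group Γ] (V E : Type u) [MulAction Γ V] [MulAction Γ E] where
  o : E → V
  t : E → V
  H : E → Set V
  o_smul : ∀ (g : Γ) (e : E), o (g • e) = g • o e
  t_smul : ∀ (g : Γ) (e : E), t (g • e) = g • t e
  t_mem : ∀ e, t e ∈ H e
  o_notMem : ∀ e, o e ∉ H e
  cross : ∀ e e', e' ≠ e → (o e' ∈ H e ↔ t e' ∈ H e)

/-- Oriented edges: `(e, true)` goes from `o e` to `t e`, `(e, false)` is the opposite. -/
@[ext] structure Dt (E : Type u) : Type u where
  e : E
  b : Bool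

instance {Γ : Type u} [Group Γ] {E : Type u} [MulAction Γ E] : MulAction Γ (Dt E) where
  smul g η := ⟨g • η.e, η.b⟩
  one_smul η := Dt.ext (one_smul _ _) rfl
  mul_smul g h η := Dt.ext (mul_smul _ _ _) rfl

theorem dt_smul_e {Γ : Type u} [Group Γ] {E : Type u} [MulAction Γ E] (g : Γ) (η : Dt E) :
    (g • η).e = g • η.e := rfl

theorem dt_smul_b {Γ : Type u} [Group Γ] {E : Type u} [MulAction Γ E] (g : Γ) (η : Dt E) :
    (g • η).b = η.b := rfl

section OTree

variable {Γ : Type u} [Group Γ] {V E : Type u} [MulAction Γ V] [MulAction Γ E]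
  (T : OTree Γ V E)

/-- The terminus of an oriented edge. -/
def OTree.tgt (η : Dt E) : V := if η.b = true then T.t η.e else T.o η.e

/-- The origin of an oriented edge. -/
def OTree.src (η : Dt E) : V := if η.b = true then T.o η.e else T.t η.e

theorem OTree.tgt_smul (g : Γ) (η : Dt E) : T.tgt (g • η) = g • T.tgt η := by
  obtain ⟨e, b⟩ := η
  cases b
  · exact T.o_smul g e
  · exact T.t_smul g e

theorem OTree.src_smul (g : Γ) (η : Dt E) : T.src (g • η) = g • T.src η := by
  obtain ⟨e, b⟩ := η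
  cases b
  · exact T.t_smul g e
  · exact T.o_smul g e

/-- `η'` precedes `η` on a reduced path. -/
def OTree.prev : GRel Γ (Dt E) where
  R η η' := T.tgt η' = T.src η ∧ ¬ (η'.e = η.e ∧ η'.b ≠ η.b)
  inv := by
    rintro g η η' ⟨h1, h2⟩
    refine ⟨by rw [T.tgt_smul, T.src_smul, h1], fun h => h2 ⟨?_, h.2⟩⟩
    exact smul_left_cancel g h.1

/-- Level functions: `P` strictly raises the level, by exactly one from level `0` on, and an
element of level `≥ 0` is determined by its level and a successor. -/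
def Levels {Γ : Type u} [Group Γ] {𝔻 : Type u} [MulAction Γ 𝔻] (P : GRel Γ 𝔻) : Prop :=
  ∀ η : 𝔻, ∃ f : 𝔻 → ℤ, f η = 0 ∧ (∀ a b, P.R a b → f a < f b) ∧
    (∀ a b, P.R a b → 0 ≤ f a → f b = f a + 1) ∧
    (∀ a a' b, P.R a b → P.R a' b → 0 ≤ f a → f a = f a' → a = a')

variable {k : Type u} [Ring k] {JE JF JX : Type} [Fintype JE] [DecidableEq JE] [Fintype JF]
  [DecidableEq JF] [Fintype JX] [DecidableEq JX]

/-- A `T`-linear invertible matrix `[δ; w]` with inverse `[q, r]`. -/
structure TLin (dE : JE → E) (dF : JF → V) (dX : JX → V) (δ : Matrix JE JX (MonoidAlgebra k Γ))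
    (w : Matrix JF JX (MonoidAlgebra k Γ)) (q : Matrix JX JE (MonoidAlgebra k Γ))
    (r : Matrix JX JF (MonoidAlgebra k Γ)) : Prop where
  sδ : Sup dE dX (fun e v => v = T.o e ∨ v = T.t e) δ
  sw : Grd dF dX w
  δq : δ * q = 1
  δr : δ * r = 0
  wq : w * q = 0
  wr : w * r = 1
  qδ : q * δ + r * w = 1

/-- The part of `δ` going to the termini. -/
noncomputable def OTree.dT (dE : JE → E) (dX : JX → V) (δ : Matrix JE JX (MonoidAlgebra k Γ)) :
    Matrix JE JX (MonoidAlgebra k Γ) := part dE dX (fun e v => v = T.t e) δ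

/-- The part of `δ` going to the origins. -/
noncomputable def OTree.dO (dE : JE → E) (dX : JX → V) (δ : Matrix JE JX (MonoidAlgebra k Γ)) :
    Matrix JE JX (MonoidAlgebra k Γ) := part dE dX (fun e v => v = T.o e) δ

/-- The part of `q` with edges ending at the vertex. -/
noncomputable def OTree.qT (dE : JE → E) (dX : JX → V) (q : Matrix JX JE (MonoidAlgebra k Γ)) :
    Matrix JX JE (MonoidAlgebra k Γ) := part dX dE (fun v e => v = T.t e) q

/-- The part of `q` with edges starting at the vertex. -/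
noncomputable def OTree.qO (dE : JE → E) (dX : JX → V) (q : Matrix JX JE (MonoidAlgebra k Γ)) :
    Matrix JX JE (MonoidAlgebra k Γ) := part dX dE (fun v e => v = T.o e) q

/-- The idempotent `π`. -/
noncomputable def OTree.pE (dE : JE → E) (dX : JX → V) (δ : Matrix JE JX (MonoidAlgebra k Γ))
    (q : Matrix JX JE (MonoidAlgebra k Γ)) : Matrix JE JE (MonoidAlgebra k Γ) :=
  part dE dE (fun e e' => e = e') (T.dT dE dX δ * q)

/-- The matrix `δ♯ = π δ_t + (1 - π) δ_o`. -/
noncomputable def OTree.ds (dE : JE → E) (dX : JX → V) (δ : Matrix JE JX (MonoidAlgebra k Γ))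
    (q : Matrix JX JE (MonoidAlgebra k Γ)) : Matrix JE JX (MonoidAlgebra k Γ) :=
  T.pE dE dX δ q * T.dT dE dX δ + (1 - T.pE dE dX δ q) * T.dO dE dX δ

/-- The graded part of `r`. -/
noncomputable def rG (dF : JF → V) (dX : JX → V) (r : Matrix JX JF (MonoidAlgebra k Γ)) :
    Matrix JX JF (MonoidAlgebra k Γ) := part dX dF (fun v v' => v = v') r

/-- The nilpotent matrix `ν`, indexed by `JE ⊕ JE` (oriented edges). -/
noncomputable def OTree.nu (dE : JE → E) (dX : JX → V) (δ : Matrix JE JX (MonoidAlgebra k Γ))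
    (q : Matrix JX JE (MonoidAlgebra k Γ)) : Matrix (JE ⊕ JE) (JE ⊕ JE) (MonoidAlgebra k Γ) :=
  -Matrix.fromBlocks
    (T.pE dE dX δ q * T.dO dE dX δ * T.qT dE dX q) (T.pE dE dX δ q * T.dO dE dX δ * T.qO dE dX q)
    ((1 - T.pE dE dX δ q) * T.dT dE dX δ * T.qT dE dX q)
    ((1 - T.pE dE dX δ q) * T.dT dE dX δ * T.qO dE dX q)

/-- The degrees of the index set `JE ⊕ JE`. -/
def dOr (dE : JE → E) : JE ⊕ JE → Dt E := Sum.elim (fun j => ⟨dE j, true⟩) (fun j => ⟨dE j, false⟩)

open Classical in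
/-- Finite subtrees: every finite set of vertices lies in a finite subtree `(V₀, E₀)`; the
augmented chain complex of the subtree is split exact over `ℤ`: the matrix `B` with the rows
`t e - o e` (`e ∈ E₀`) and the basis row of `b` is invertible. -/
def OTree.Subtrees (b : V) : Prop :=
  ∀ F : Finset V, ∃ (V₀ : Finset V) (E₀ : Finset E), b ∈ V₀ ∧ F ⊆ V₀ ∧
    (∀ e ∈ E₀, T.o e ∈ V₀ ∧ T.t e ∈ V₀) ∧
    ∃ (B : Matrix (E₀ ⊕ Unit) V₀ ℤ) (N : Matrix V₀ (E₀ ⊕ Unit) ℤ), B * N = 1 ∧ N * B = 1 ∧
      (∀ e v, B (Sum.inl e) v =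
        (if (v : V) = T.t e then 1 else 0) - (if (v : V) = T.o e then 1 else 0)) ∧
      (∀ v, B (Sum.inr ()) v = if (v : V) = b then 1 else 0)

end OTree

end Pool.Agent.NegK.TW
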