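import Pool.Agent.Lib.MP_28303a_al.TW.Graph

/-! # Regular coherent groups belong to the class `𝒮`

Statements of the modules of part 7.  Proofs: `Paper3.md`. -/

set_option autoImplicit false
set_option linter.unusedSectionVars false
set_option linter.unusedVariables false

namespace Pool.Agent.NegK.TW

universe u v w

open Matrix MonoidAlgebra

/-- HIG (200 lines). Higman's trick over polynomial rings. -/
def HigStatement : Prop :=
  ∀ (B : Type u) [Ring B] (M : Type u) [AddCommGroup M] (χ : Det1 (Polynomial B) M) (ι : Type)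
    [Fintype ι] [DecidableEq ι] (β : Matrix ι ι (Polynomial B)), IsUnit β →
    ∃ (κ : Type) (_ : Fintype κ) (_ : DecidableEq κ) (a N : Matrix κ κ B), IsUnit a ∧
      IsNilpotent N ∧ IsUnit (1 + N.map (fun b => Polynomial.C b * Polynomial.X)) ∧
      χ.val β = χ.val (a.map Polynomial.C) +
        χ.val (1 + N.map (fun b => Polynomial.C b * Polynomial.X))

/-- MRP (80 lines). Change of rings `A → A[X]`. -/
def MrpStatement : Prop :=
  ∀ (A : Type u) [Ring A] (n : ℕ) (ι κ : Type) [Fintype ι] [Fintype κ] (z : Matrix ι κ A),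
    MRes n z → MRes n (z.map (Polynomial.C : A →+* Polynomial A))

/-- LNP (150 lines, uses MRA, MRP, MRC, LAT). -/
def LnpStatement : Prop :=
  ∀ (A : Type u) [Ring A], RegCoh A → ∀ (ι : Type) [Fintype ι] [DecidableEq ι]
    (N : Matrix ι ι (LaurentPolynomial A)), IsNilpotent N →
    ind (1 + N.map (fun b => lmap (Polynomial.C : A →+* Polynomial A) b *
      LaurentPolynomial.C Polynomial.X)) = 0

/-- RCN (120 lines, uses `∃ S : BdSys, IsInd S`, HIG, LNP). -/
def RcnStatement : Prop :=
  ∀ (A : Type u) [Ring A], RegCoh A →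
    Function.Surjective (K0.map (Polynomial.C : A →+* Polynomial A))

/-- RCL (200 lines, uses MRA). -/
def RclStatement : Prop :=
  ∀ (A : Type u) [Ring A], RegCoh (Polynomial A) → Function.Surjective (K0.map (posMap A))

/-- RCS (100 lines, uses RCN, RCL, PSWAP (WR), PREG (WR), RCI). -/
def RcsStatement : Prop := ∀ (G : Type u) [Group G], InRC G → InS G

/-- RCU (80 lines, uses MRA, MRB, MRC). Directed unions of regular coherent groups. -/
def RcuStatement : Prop :=
  ∀ (G : Type u) [Group G],
    (∀ S : Finset G, ∃ H : Subgroup G, (∀ s ∈ S, s ∈ H) ∧ InRC H) → InRC G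

end Pool.Agent.NegK.TW
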