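import Pool.Agent.Lib.MP_28303a_al.TW.Graph2

/-! # The fundamental theorem for `K₀`: polynomials and Laurent polynomials -/

set_option autoImplicit false
set_option linter.unusedSectionVars false
set_option linter.unusedVariables false

namespace Pool.Agent.NegK.TW

universe u v w

/-- FUN (300 lines). If `K₀(A) → K₀(A[t, t⁻¹])` is onto then `K₀(A) → K₀(A[t])` is onto, for every
ring `A`. -/
def FunStatement : Prop :=
  ∀ (A : Type u) [Ring A],
    Function.Surjective (K0.map (LaurentPolynomial.C : A →+* LaurentPolynomial A)) →
    Function.Surjective (K0.map (Polynomial.C : A →+* Polynomial A))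

end Pool.Agent.NegK.TW
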