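import Pool.Agent.Lib.MP_28303a_al.TW.Iface

/-! # Lemmas on iterated components -/

set_option autoImplicit false
set_option linter.unusedSectionVars false
set_option linter.unusedVariables false

namespace Pool.Agent.NegK.TW

universe u v w

open Matrix MonoidAlgebra

theorem k0_map_map {A B C : Type u} [Ring A] [Ring B] [Ring C] (g : B →+* C) (f : A →+* B)
    (x : K0 A) : K0.map g (K0.map f x) = K0.map (g.comp f) x :=
  (DFunLike.congr_fun (K0Fun.hom_comp g f) x).symm

theorem k0_map_id {A : Type u} [Ring A] (x : K0 A) : K0.map (RingHom.id A) x = x :=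
  DFunLike.congr_fun (K0Fun.hom_id (A := A)) x

/-- Smaller subgroups have smaller images. -/
theorem img_mono {k Γ : Type u} [Ring k] [Group Γ] {G H : Subgroup Γ} (h : G ≤ H) :
    img k G ≤ img k H := by
  rintro _ ⟨x, rfl⟩
  refine ⟨K0.map (mdr k (Subgroup.inclusion h)) x, ?_⟩
  rw [k0_map_map, mdr_comp_mdr]
  rfl

section chains

variable {k : Type u} [Ring k] {Γ : Type u} [Group Γ] {D : Type u} [MulAction Γ D]
variable {J : Type} [Fintype J]

theorem itc_nil (dg : J → D) (μ : Matrix J J (MonoidAlgebra k Γ)) (x : J → MonoidAlgebra k Γ) :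
    itc dg μ [] x = x := rfl

theorem itc_cons (dg : J → D) (μ : Matrix J J (MonoidAlgebra k Γ)) (c : D) (l : List D)
    (x : J → MonoidAlgebra k Γ) : itc dg μ (c :: l) x = itc dg μ l (res dg {c} (x ᵥ* μ)) := rfl

theorem itc_append (dg : J → D) (μ : Matrix J J (MonoidAlgebra k Γ)) (l l' : List D) :
    ∀ x : J → MonoidAlgebra k Γ, itc dg μ (l ++ l') x = itc dg μ l' (itc dg μ l x) := by
  induction l with
  | nil => intro x; rfl
  | cons c l ih => intro x; exact ih _

theorem itc_add (dg : J → D) (μ : Matrix J J (MonoidAlgebra k Γ)) (l : List D) :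
    ∀ x y : J → MonoidAlgebra k Γ, itc dg μ l (x + y) = itc dg μ l x + itc dg μ l y := by
  induction l with
  | nil => intro x y; rfl
  | cons c l ih =>
    intro x y
    rw [itc_cons, itc_cons, itc_cons, Matrix.add_vecMul, map_add, ih]

theorem itc_zero (dg : J → D) (μ : Matrix J J (MonoidAlgebra k Γ)) (l : List D) :
    itc dg μ l (0 : J → MonoidAlgebra k Γ) = 0 := by
  have h := itc_add dg μ l 0 0
  rw [add_zero] at h
  exact left_eq_add.1 h

theorem itc_sum (dg : J → D) (μ : Matrix J J (MonoidAlgebra k Γ)) (l : List D) {α : Type*}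
    (s : Finset α) (x : α → J → MonoidAlgebra k Γ) :
    itc dg μ l (∑ a ∈ s, x a) = ∑ a ∈ s, itc dg μ l (x a) := by
  classical
  induction s using Finset.induction_on with
  | empty => rw [Finset.sum_empty, Finset.sum_empty, itc_zero]
  | insert a s ha ih => rw [Finset.sum_insert ha, Finset.sum_insert ha, itc_add, ih]

/-- Nonempty lists: the iterated component is homogeneous. -/
theorem itc_spt (dg : J → D) (μ : Matrix J J (MonoidAlgebra k Γ)) (l : List D) (c : D) :
    ∀ x : J → MonoidAlgebra k Γ, Spt dg {c} (itc dg μ (l ++ [c]) x) := by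
  intro x
  rw [itc_append, itc_cons, itc_nil]
  exact spt_res _ _ _

/-- Longer lists. -/
theorem ChainNil.of_le {dg : J → D} {μ : Matrix J J (MonoidAlgebra k Γ)} {d : ℕ}
    (h : ChainNil dg μ d) (l : List D) (hl : d ≤ l.length) (x : J → MonoidAlgebra k Γ) :
    itc dg μ l x = 0 := by
  have h1 : itc dg μ (l.take d ++ l.drop d) x = 0 := by
    rw [itc_append, h (l.take d) (by rw [List.length_take]; omega), itc_zero]
  rwa [List.take_append_drop] at h1

theorem ChainNil.mono {dg : J → D} {μ : Matrix J J (MonoidAlgebra k Γ)} {d d' : ℕ}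
    (h : ChainNil dg μ d) (hd : d ≤ d') : ChainNil dg μ d' :=
  fun l hl x => h.of_le l (hl ▸ hd) x

/-- The action of the group. -/
theorem itc_smul (dg : J → D) (μ : Matrix J J (MonoidAlgebra k Γ)) (g : Γ) (c : k) (l : List D) :
    ∀ x : J → MonoidAlgebra k Γ, itc dg μ (l.map (g • ·)) ((single g c : MonoidAlgebra k Γ) • x) =
      (single g c : MonoidAlgebra k Γ) • itc dg μ l x := by
  induction l with
  | nil => intro x; rfl
  | cons a l ih =>
    intro x
    rw [List.map_cons, itc_cons, itc_cons, Matrix.smul_vecMul, res_single_smul]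
    have h1 : {d : D | g • d ∈ ({g • a} : Set D)} = {a} := by
      ext d
      exact ⟨fun h => smul_left_cancel g h, fun h => congrArg (g • ·) h⟩
    rw [h1]
    exact ih _

variable [DecidableEq J]

theorem pow_eq_zero_of_itc (dg : J → D) (μ : Matrix J J (MonoidAlgebra k Γ)) (n : ℕ) :
    ∀ x : J → MonoidAlgebra k Γ, (∀ l : List D, l.length = n → itc dg μ l x = 0) →
      x ᵥ* μ ^ n = 0 := by
  induction n with
  | zero =>
    intro x h
    rw [pow_zero, Matrix.vecMul_one]
    exact h [] rfl
  | succ n ih =>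
    intro x h
    obtain ⟨F, hF⟩ := exists_degrees dg (x ᵥ* μ)
    rw [pow_succ', ← Matrix.vecMul_vecMul, ← hF.sum_res, Matrix.sum_vecMul]
    refine Finset.sum_eq_zero fun c _ => ih _ fun l hl => ?_
    exact h (c :: l) (by rw [List.length_cons, hl])

theorem ChainNil.pow_eq_zero {dg : J → D} {μ : Matrix J J (MonoidAlgebra k Γ)} {d : ℕ}
    (h : ChainNil dg μ d) : μ ^ d = 0 := by
  ext1 i j
  have h1 := congrFun (pow_eq_zero_of_itc dg μ d (Pi.single i 1) fun l hl => h l hl _) j
  rwa [Matrix.single_one_vecMul] at h1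

theorem ChainNil.isNilpotent {dg : J → D} {μ : Matrix J J (MonoidAlgebra k Γ)} {d : ℕ}
    (h : ChainNil dg μ d) : IsNilpotent μ := ⟨d, h.pow_eq_zero⟩

theorem ChainNil.isUnit {dg : J → D} {μ : Matrix J J (MonoidAlgebra k Γ)} {d : ℕ}
    (h : ChainNil dg μ d) : IsUnit (1 - μ) := h.isNilpotent.isUnit_one_sub

/-- It is enough to consider homogeneous rows. -/
theorem chainNil_of_hom {dg : J → D} {μ : Matrix J J (MonoidAlgebra k Γ)} {d : ℕ}
    (h : ∀ (l : List D), l.length = d → ∀ (c : D) (x : J → MonoidAlgebra k Γ), Spt dg {c} x →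
      itc dg μ l x = 0) : ChainNil dg μ d := by
  intro l hl x
  obtain ⟨F, hF⟩ := exists_degrees dg x
  rw [← hF.sum_res, itc_sum]
  exact Finset.sum_eq_zero fun c _ => h l hl c _ (spt_res _ _ _)

end chains

end Pool.Agent.NegK.TW
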